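import Pool.Agent.N824.CT.Master
import Pool.Agent.N824.CJ.Conv
import Pool.Agent.N824.CJ.ExactR
import Pool.Agent.N824.CJ.FinalV

/-!
# Submersions and families of local diffeomorphisms from coarse maps
-/

set_option autoImplicit false
set_option maxSynthPendingDepth 3

open Set Filter Topology Metric Function MeasureTheory
open scoped Manifold ContDiff Convolution

set_option linter.unusedSectionVars false

noncomputable section

namespace Pool.Agent.N824.CT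

open Pool.Agent.Y522 Pool.Agent.Y954.SH Pool.Agent.N824.CR Pool.Agent.N824.CN Pool.Agent.N824.CJ

variable {m n : ℕ} {W : Type} [NormedAddCommGroup W] [NormedSpace ℝ W] [FiniteDimensional ℝ W]
  {N : Type} [TopologicalSpace N] [ChartedSpace (E n) N] [IsManifold (𝓡 n) ∞ N]
  {X : Type} [TopologicalSpace X] [ChartedSpace (E m) X]

/-- smooth maps are affine in the mean -/
theorem smooth_AM {g : E m → W} (hg : ∀ᶠ q in 𝓝 (0 : E m), ContDiffAt ℝ ∞ g q) {κ : ℝ}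
    (hκ : 1 ≤ κ) :
    ∃ ρ a M : ℝ, 0 < ρ ∧ 1 ≤ a ∧ 0 ≤ M ∧ ∀ p, ‖p‖ < ρ → ∀ r, 0 < r → r < ρ →
      ‖fderiv ℝ g p‖ ≤ M ∧ AM m g p κ r (a * Real.sqrt r) (fderiv ℝ g p) := by
  obtain ⟨ρ4, hρ4, hb4⟩ := Metric.mem_nhds_iff.1 hg
  obtain ⟨ρ1, C2, hρ1, hC2, hd1, hq1⟩ := quad_ballW hg.self_of_nhds one_pos
  have hVB := VB_nonneg (n := m)
  have hκ2 : 1 ≤ κ ^ 2 := one_le_pow₀ hκ
  have hκ2' : 0 < κ ^ 2 := by linarith
  obtain ⟨M, hM⟩ : ∃ M, M = ‖fderiv ℝ g 0‖ + 1 := ⟨_, rfl⟩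
  have hM0 : 0 ≤ M := by rw [hM]; positivity
  obtain ⟨G, hG⟩ : ∃ G, G = C2 * (κ ^ 2 * κ ^ 2) * ((κ ^ 2) ^ m * VB m) := ⟨_, rfl⟩
  have hG0 : 0 ≤ G := by rw [hG]; positivity
  have h15 : 0 < min ρ1 ρ4 := lt_min hρ1 hρ4
  obtain ⟨ρ5, hρ5⟩ : ∃ ρ5, ρ5 = min ρ1 ρ4 / (1 + κ ^ 2) := ⟨_, rfl⟩
  have hρ50 : 0 < ρ5 := by rw [hρ5]; positivity
  refine ⟨min 1 ρ5, G + 1, M, lt_min one_pos hρ50, by linarith, hM0,
    fun p hp r h0 hrρ => ?_⟩
  have hp5 : ‖p‖ < ρ5 := hp.trans_le (min_le_right _ _)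
  have hr5 : r < ρ5 := hrρ.trans_le (min_le_right _ _)
  have hr1 : r < 1 := hrρ.trans_le (min_le_left _ _)
  have hnear : ∀ q : E m, ‖q - p‖ ≤ κ ^ 2 * r → ‖q‖ < min ρ1 ρ4 := by
    intro q hq
    have h1 : ‖q‖ ≤ ‖q - p‖ + ‖p‖ := by
      calc ‖q‖ = ‖(q - p) + p‖ := by congr 1; abel
        _ ≤ _ := norm_add_le _ _
    have h2 : ρ5 * (1 + κ ^ 2) = min ρ1 ρ4 := by
      rw [hρ5]
      field_simp
    nlinarith
  have hp1 : ‖p - 0‖ < ρ1 := by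
    rw [sub_zero]
    exact (hnear p (by simp; positivity)).trans_le (min_le_left _ _)
  have hs0 : 0 < Real.sqrt r := Real.sqrt_pos.2 h0
  have hss : Real.sqrt r * Real.sqrt r = r := Real.mul_self_sqrt h0.le
  have hrs : r ≤ Real.sqrt r := by
    have : Real.sqrt r ≤ 1 := Real.sqrt_le_one.2 hr1.le
    nlinarith
  have hgc : ContinuousOn g (closedBall p (κ ^ 2 * r)) := by
    intro q hq
    rw [mem_closedBall, dist_eq_norm] at hq
    have h1 : q ∈ ball (0 : E m) ρ4 :=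
      mem_ball_zero_iff.2 ((hnear q hq).trans_le (min_le_right _ _))
    have h2 : ContDiffAt ℝ ∞ g q := hb4 h1
    exact h2.continuousAt.continuousWithinAt
  refine ⟨?_, hgc.integrableOn_compact (isCompact_closedBall _ _), g p, ?_⟩
  · have h1 := hd1 p hp1
    have h2 : ‖fderiv ℝ g p‖ ≤ ‖fderiv ℝ g 0‖ + ‖fderiv ℝ g p - fderiv ℝ g 0‖ := by
      calc ‖fderiv ℝ g p‖ = ‖fderiv ℝ g 0 + (fderiv ℝ g p - fderiv ℝ g 0)‖ := by
            congr 1; abel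
        _ ≤ _ := norm_add_le _ _
    rw [hM]
    linarith
  · have h3 : ‖∫ q in closedBall p (κ ^ 2 * r), ‖g q - g p - fderiv ℝ g p (q - p)‖‖ ≤
        C2 * (κ ^ 2 * κ ^ 2) * (r * r) *
          (volume : Measure (E m)).real (closedBall p (κ ^ 2 * r)) := by
      refine norm_setIntegral_le_of_norm_le_const measure_closedBall_lt_top fun q hq => ?_
      rw [mem_closedBall, dist_eq_norm] at hq
      rw [norm_norm]
      refine (hq1 p (κ ^ 2 * r) (fun s hs => ?_) q hq).trans ?_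
      · rw [sub_zero]
        exact (hnear s hs).trans_le (min_le_left _ _)
      · calc C2 * (κ ^ 2 * r) * ‖q - p‖ ≤ C2 * (κ ^ 2 * r) * (κ ^ 2 * r) := by gcongr
          _ = _ := by ring
    rw [vol_cb p (show 0 < κ ^ 2 * r by positivity)] at h3
    refine ((le_abs_self _).trans h3).trans ?_
    calc C2 * (κ ^ 2 * κ ^ 2) * (r * r) * ((κ ^ 2 * r) ^ m * VB m) =
        (G * r) * r ^ (m + 1) := by
          rw [hG, mul_pow]
          ring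
      _ ≤ ((G + 1) * Real.sqrt r) * r ^ (m + 1) := by
        have h4 : G * r ≤ (G + 1) * Real.sqrt r := by nlinarith
        gcongr

/-- smooth maps satisfy the coarse condition -/
theorem backwardT [IsManifold (𝓡 m) ∞ X] {em : N → W} (hem : ContMDiff (𝓡 n) 𝓘(ℝ, W) ∞ em)
    {d : X → X → ℝ} {S : Set ℝ} {F : X → N} (hF : ContMDiff (𝓡 m) (𝓡 n) ∞ F)
    {Q : (E m → X) → E m → (E m →L[ℝ] W) → ℝ → ℝ → Prop} {A : E m → X}
    (hA : LD m A 0) {κ ρ₀ : ℝ} (hκ : 1 ≤ κ) (hρ₀ : 0 < ρ₀)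
    (hbi : ∀ p q, ‖p‖ < ρ₀ → ‖q‖ < ρ₀ →
      d (A p) (A q) ≤ κ * ‖p - q‖ ∧ ‖p - q‖ ≤ κ * d (A p) (A q))
    (hQ : ∃ ε : ℝ, 0 < ε ∧ ∀ p δ, ‖p‖ < ε → 0 ≤ δ → δ < ε →
      Q A p (fderiv ℝ (fun z => em (F (A z))) p) κ δ) :
    CRT m em d S (fun _ => F) Q (A 0) := by
  obtain ⟨ε, hε, hQ⟩ := hQ
  have hg : ∀ᶠ q in 𝓝 (0 : E m), ContDiffAt ℝ ∞ (fun z => em (F (A z))) q := by
    filter_upwards [hA.eventually] with q hq
    have hq' : LD m A q := hq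
    have k1 : ContMDiffAt (𝓡 m) (𝓡 n) ∞ (F ∘ A) q := (hF (A q)).comp q hq'.contMDiffAt
    have k2 : ContMDiffAt (𝓡 m) 𝓘(ℝ, W) ∞ (em ∘ (F ∘ A)) q := ContMDiffAt.comp q (hem _) k1
    exact contMDiffAt_iff_contDiffAt.1 k2
  obtain ⟨ρ1, a, M, hρ1, ha, hM, hmain⟩ := smooth_AM hg hκ
  have hsq : Tendsto Real.sqrt (𝓝[>] 0) (𝓝 0) := by
    have h1 : Tendsto Real.sqrt (𝓝 0) (𝓝 (Real.sqrt 0)) := Real.continuous_sqrt.continuousAt
    rw [Real.sqrt_zero] at h1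
    exact h1.mono_left nhdsWithin_le_nhds
  have hlim : ∀ᶠ r in 𝓝[>] (0 : ℝ), a * Real.sqrt r < ε := by
    have h1 := hsq.const_mul a
    rw [mul_zero] at h1
    exact h1.eventually_lt_const hε
  obtain ⟨ρ3, hρ3, hb3⟩ := mem_nhdsGT_iff_exists_Ioo_subset.1 hlim
  have hρ3' : 0 < ρ3 := hρ3
  obtain ⟨ρ, hρ⟩ : ∃ ρ, ρ = min (min ρ₀ ρ1) (min (min ρ3 ε) 1) := ⟨_, rfl⟩
  have k1 : ρ ≤ ρ₀ := by rw [hρ]; exact (min_le_left _ _).trans (min_le_left _ _)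
  have k2 : ρ ≤ ρ1 := by rw [hρ]; exact (min_le_left _ _).trans (min_le_right _ _)
  have k3 : ρ ≤ ρ3 := by
    rw [hρ]; exact (min_le_right _ _).trans ((min_le_left _ _).trans (min_le_left _ _))
  have k4 : ρ ≤ ε := by
    rw [hρ]; exact (min_le_right _ _).trans ((min_le_left _ _).trans (min_le_right _ _))
  have k5 : ρ ≤ 1 := by rw [hρ]; exact (min_le_right _ _).trans (min_le_right _ _)
  refine ⟨A, κ, ρ, fun r => (1 + M + a) * Real.sqrt r, rfl, hA, hκ, ?_, ?_,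
    fun p q hp hq => hbi p q (hp.trans_le k1) (hq.trans_le k1), fun p hp r _ h0 hrρ => ?_⟩
  · rw [hρ]
    exact lt_min (lt_min hρ₀ hρ1) (lt_min (lt_min hρ3' hε) one_pos)
  · have h1 := hsq.const_mul (1 + M + a)
    rwa [mul_zero] at h1
  · obtain ⟨hd, hAM⟩ := hmain p (hp.trans_le k2) r h0 (hrρ.trans_le k2)
    have hr1 : r < 1 := hrρ.trans_le k5
    have hs0 : 0 < Real.sqrt r := Real.sqrt_pos.2 h0
    have hss : Real.sqrt r * Real.sqrt r = r := Real.mul_self_sqrt h0.le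
    have hs1 : Real.sqrt r ≤ 1 := Real.sqrt_le_one.2 hr1.le
    have hrs : r ≤ Real.sqrt r := by nlinarith
    have hδε : a * Real.sqrt r < ε := hb3 ⟨h0, hrρ.trans_le k3⟩
    refine ⟨_, a * Real.sqrt r, by positivity, ?_, ?_, hAM,
      hQ p _ (hp.trans_le k4) (by positivity) hδε⟩
    · have e1 : a * Real.sqrt r * ((1 + M + a) * Real.sqrt r) = (a * (1 + M + a)) * r := by
        calc _ = (a * (1 + M + a)) * (Real.sqrt r * Real.sqrt r) := by ring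
          _ = _ := by rw [hss]
      rw [e1]
      have e2 : 1 + M ≤ a * (1 + M + a) := by nlinarith
      calc _ ≤ (1 + M) * r := by gcongr
        _ ≤ _ := by gcongr
    · calc (‖fderiv ℝ (fun z => em (F (A z))) p‖ + a * Real.sqrt r) * r ≤
          (M + a * 1) * r := by gcongr
        _ ≤ (1 + M + a) * Real.sqrt r := by
          have : M + a * 1 ≤ 1 + M + a := by linarith
          gcongr

/-- the differential of the map in coordinates -/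
theorem fd_eq [IsManifold (𝓡 m) ∞ X] {em : N → W} (hem : ContMDiff (𝓡 n) 𝓘(ℝ, W) ∞ em)
    {F : X → N} (hF : ContMDiff (𝓡 m) (𝓡 n) ∞ F) {A : E m → X} {p : E m} (hA : LD m A p)
    (v : E m) : fderiv ℝ (fun z => em (F (A z))) p v =
      mfderiv (𝓡 n) 𝓘(ℝ, W) em (F (A p))
        (mfderiv (𝓡 m) (𝓡 n) F (A p) (mfderiv (𝓡 m) (𝓡 m) A p v)) := by
  have h0 : fderiv ℝ (fun z => em (F (A z))) p v =
      mfderiv (𝓡 m) 𝓘(ℝ, W) (em ∘ (F ∘ A)) p v := by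
    rw [← mfderiv_eq_fderiv]
    rfl
  have h1 := mfderiv_comp_apply (I := 𝓡 m) (I' := 𝓡 n) (I'' := 𝓘(ℝ, W)) (g := em) (f := F ∘ A)
    p ((hem _).mdifferentiableAt (by simp))
    (((hF (A p)).comp p hA.contMDiffAt).mdifferentiableAt (by simp)) v
  have h2 := mfderiv_comp_apply (I := 𝓡 m) (I' := 𝓡 m) (I'' := 𝓡 n) (g := F) (f := A)
    p ((hF _).mdifferentiableAt (by simp)) (hA.contMDiffAt.mdifferentiableAt (by simp)) v
  refine (h0.trans h1).trans ?_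
  exact congrArg (mfderiv (𝓡 n) 𝓘(ℝ, W) em (F (A p))) h2

/-- the embedding is an immersion -/
theorem Retr.imm {em : N → W} {P : W → N} {δ0 Cr : ℝ} (hret : Retr n em P δ0 Cr) (y : N)
    (u : TangentSpace (𝓡 n) y) (h : mfderiv (𝓡 n) 𝓘(ℝ, W) em y u = 0) : u = 0 := by
  have h0 : ‖em y - em y‖ < δ0 := by
    rw [sub_self, norm_zero]
    exact hret.δ0
  have h1 := mfderiv_comp_apply (I := 𝓡 n) (I' := 𝓘(ℝ, W)) (I'' := 𝓡 n) (g := P) (f := em)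
    y ((hret.sP y (em y) h0).mdifferentiableAt (by simp))
    ((hret.si y).mdifferentiableAt (by simp)) u
  have h2 : P ∘ em = id := funext hret.left
  rw [h2, mfderiv_id, h] at h1
  have h3 : u = mfderiv 𝓘(ℝ, W) (𝓡 n) P (em y) 0 := h1
  have hz : mfderiv 𝓘(ℝ, W) (𝓡 n) P (em y) 0 = 0 :=
    (mfderiv 𝓘(ℝ, W) (𝓡 n) P (em y)).map_zero
  exact h3.trans hz

/-- the margin on a subspace -/
def QSub (m n : ℕ) {W : Type} [NormedAddCommGroup W] [NormedSpace ℝ W] {X : Type} (C : ℝ)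
    (_ : E m → X) (_ : E m) (L : E m →L[ℝ] W) (κ δ : ℝ) : Prop :=
  ∃ V : Submodule ℝ (E m), Module.finrank ℝ V = n ∧ ∀ v ∈ V, v ≠ 0 →
    C * κ ^ (2 * m + 2) * δ * ‖v‖ < ‖L v‖

theorem surj_of_inj {T : E m →L[ℝ] E n} {V : Submodule ℝ (E m)}
    (hV : Module.finrank ℝ V = n) (h : ∀ v ∈ V, T v = 0 → v = 0) : Surjective T := by
  have h1 : Injective (T.toLinearMap.comp V.subtype) := by
    rw [← LinearMap.ker_eq_bot, LinearMap.ker_eq_bot']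
    intro v hv
    exact Subtype.ext (h v v.2 hv)
  have h2 : Surjective (T.toLinearMap.comp V.subtype) := by
    refine (LinearMap.injective_iff_surjective_of_finrank_eq_finrank ?_).1 h1
    rw [hV, finrank_euclideanSpace_fin]
  intro y
  obtain ⟨v, hv⟩ := h2 y
  exact ⟨v, hv⟩

/-- coarse submersions give submersions -/
theorem forwardSub [T2Space X] [LocallyCompactSpace X] [SecondCountableTopology X]
    [IsManifold (𝓡 m) ∞ X] {em : N → W} {P : W → N} {δ0 Cr : ℝ}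
    (hret : Retr n em P δ0 Cr) {C : ℝ} (hC : 2 * C2 m Cr ≤ C) {d : X → X → ℝ} {S : Set ℝ}
    (hS : (0 : ℝ) ∈ closure (S ∩ Ioi 0)) {U Z : Set X} (hU : IsOpen U)
    (hZ : IsClosed Z) (hZU : Z ⊆ U) (hK : IsCompact Uᶜ) {f : ℝ → X → N} {F₀ : X → N}
    (hF₀ : ContMDiff (𝓡 m) (𝓡 n) ∞ F₀) (hf0 : ∀ r ∈ S, ∀ x ∈ U, f r x = F₀ x)
    (hf : ∀ x, x ∉ U → CRT m em d S f (QSub m n C) x) :
    ∃ (F : X → N) (K : Set X), IsCompact K ∧ Disjoint K Z ∧ ContMDiff (𝓡 m) (𝓡 n) ∞ F ∧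
      (∀ x, x ∉ K → F x = F₀ x) ∧
      ∀ x, Surjective (mfderiv (𝓡 m) (𝓡 n) F x) ∨ (x ∈ U ∧ F =ᶠ[𝓝 x] F₀) := by
  obtain ⟨F, K, hKc, hKZ, hF, hK0, hreg⟩ := master hret hS hU hZ hZU hK hF₀ hf0 hf
  refine ⟨F, K, hKc, hKZ, hF, hK0, fun x => ?_⟩
  rcases hreg x with ⟨A, p, L, κ, δ, rfl, hA, hκ, hδ, ⟨V, hV, hVL⟩, hcl⟩ | h
  · left
    have key : ∀ v ∈ V, ((mfderiv (𝓡 m) (𝓡 n) F (A p)).comp
        (mfderiv (𝓡 m) (𝓡 m) A p) : E m →L[ℝ] E n) v = 0 → v = 0 := by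
      intro v hv h0
      by_contra hv0
      have h1 := hVL v hv hv0
      have h2 := hcl v
      have h3 : mfderiv (𝓡 m) (𝓡 n) F (A p) (mfderiv (𝓡 m) (𝓡 m) A p v) = 0 := h0
      rw [fd_eq hret.si hF hA, h3] at h2
      have h4 : mfderiv (𝓡 n) 𝓘(ℝ, W) em (F (A p)) 0 = 0 := ContinuousLinearMap.map_zero _
      rw [h4] at h2
      have e0 : ‖(0 : W) - L v‖ = ‖L v‖ := by rw [zero_sub, norm_neg]
      have h2' : ‖L v‖ ≤ C2 m Cr * κ ^ (2 * m + 2) * δ * ‖v‖ + 1 / 2 * ‖L v‖ :=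
        e0.symm.le.trans h2
      have h5 : 2 * (C2 m Cr * κ ^ (2 * m + 2) * δ * ‖v‖) ≤
          C * κ ^ (2 * m + 2) * δ * ‖v‖ := by
        have e1 : 2 * (C2 m Cr * κ ^ (2 * m + 2) * δ * ‖v‖) =
          (2 * C2 m Cr) * (κ ^ (2 * m + 2) * δ * ‖v‖) := by ring
        have e2 : C * κ ^ (2 * m + 2) * δ * ‖v‖ = C * (κ ^ (2 * m + 2) * δ * ‖v‖) := by ring
        rw [e1, e2]
        gcongr
      linarith
    have hs := surj_of_inj hV key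
    intro y
    obtain ⟨v, hv⟩ := hs y
    exact ⟨_, hv⟩
  · exact Or.inr h

/-- submersions satisfy the coarse condition -/
theorem backwardSub [IsManifold (𝓡 m) ∞ X] {em : N → W} {P : W → N} {δ0 Cr : ℝ}
    (hret : Retr n em P δ0 Cr) (C : ℝ) {d : X → X → ℝ} (S : Set ℝ) {F : X → N}
    (hF : ContMDiff (𝓡 m) (𝓡 n) ∞ F) {A : E m → X} (hA : LD m A 0) {κ ρ₀ : ℝ} (hκ : 1 ≤ κ)
    (hρ₀ : 0 < ρ₀) (hbi : ∀ p q, ‖p‖ < ρ₀ → ‖q‖ < ρ₀ →
      d (A p) (A q) ≤ κ * ‖p - q‖ ∧ ‖p - q‖ ≤ κ * d (A p) (A q))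
    (hs : Surjective (mfderiv (𝓡 m) (𝓡 n) F (A 0))) :
    CRT m em d S (fun _ => F) (QSub m n C) (A 0) := by
  refine backwardT hret.si hF hA hκ hρ₀ hbi ?_
  obtain ⟨T, hT⟩ : ∃ T : E m →L[ℝ] E n, T = (mfderiv (𝓡 m) (𝓡 n) F (A 0)).comp
    (mfderiv (𝓡 m) (𝓡 m) A 0) := ⟨_, rfl⟩
  have hTs : Surjective T := by
    intro y
    obtain ⟨u, hu⟩ := hs y
    obtain ⟨v, hv⟩ : ∃ v : E m, mfderiv (𝓡 m) (𝓡 m) A 0 v = u := by
      have h := hA.mfderivToContinuousLinearEquiv_coe (by simp)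
      refine ⟨(hA.mfderivToContinuousLinearEquiv (by simp)).symm u, ?_⟩
      rw [← h]
      exact (hA.mfderivToContinuousLinearEquiv (by simp)).apply_symm_apply u
    refine ⟨v, ?_⟩
    rw [hT]
    show mfderiv (𝓡 m) (𝓡 n) F (A 0) (mfderiv (𝓡 m) (𝓡 m) A 0 v) = y
    rw [hv, hu]
  obtain ⟨V, hV⟩ := Submodule.exists_isCompl (LinearMap.ker T.toLinearMap)
  have hVn : Module.finrank ℝ V = n := by
    have h1 := Submodule.finrank_add_eq_of_isCompl hV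
    have h2 := LinearMap.finrank_range_add_finrank_ker T.toLinearMap
    have h3 : LinearMap.range T.toLinearMap = ⊤ := LinearMap.range_eq_top.2 hTs
    rw [h3, finrank_top, finrank_euclideanSpace_fin] at h2
    omega
  obtain ⟨g, hg⟩ : ∃ g : E m → W, g = fun z => em (F (A z)) := ⟨_, rfl⟩
  have hinj : ∀ v ∈ V, fderiv ℝ g 0 v = 0 → v = 0 := by
    intro v hv h0
    rw [hg, fd_eq hret.si hF hA] at h0
    have h1 : mfderiv (𝓡 m) (𝓡 n) F (A 0) (mfderiv (𝓡 m) (𝓡 m) A 0 v) = 0 :=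
      Retr.imm hret _ _ h0
    have h2 : v ∈ LinearMap.ker T.toLinearMap := by
      rw [LinearMap.mem_ker, hT]
      exact h1
    have h3 : v ∈ LinearMap.ker T.toLinearMap ⊓ V := ⟨h2, hv⟩
    rw [hV.inf_eq_bot] at h3
    exact (Submodule.mem_bot ℝ).1 h3
  obtain ⟨c, hc, hcl⟩ := exists_lower ((fderiv ℝ g 0).toLinearMap.comp V.subtype) (by
    rw [← LinearMap.ker_eq_bot, LinearMap.ker_eq_bot']
    intro v hv
    exact Subtype.ext (hinj v v.2 hv))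
  have hgs : ContDiffAt ℝ ∞ g 0 := by
    have k1 : ContMDiffAt (𝓡 m) (𝓡 n) ∞ (F ∘ A) 0 := (hF (A 0)).comp 0 hA.contMDiffAt
    have k2 : ContMDiffAt (𝓡 m) 𝓘(ℝ, W) ∞ (em ∘ (F ∘ A)) 0 :=
      ContMDiffAt.comp 0 (hret.si _) k1
    rw [hg]
    exact contMDiffAt_iff_contDiffAt.1 k2
  have hcont : ∀ᶠ p in 𝓝 (0 : E m), ‖fderiv ℝ g p - fderiv ℝ g 0‖ < c / 2 := by
    have h1 : ContinuousAt (fderiv ℝ g) 0 :=
      (hgs.fderiv_right (m := 0) (by simp)).continuousAt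
    have h2 : Tendsto (fun p => ‖fderiv ℝ g p - fderiv ℝ g 0‖) (𝓝 0)
        (𝓝 ‖fderiv ℝ g 0 - fderiv ℝ g 0‖) := (h1.sub continuousAt_const).norm
    rw [sub_self, norm_zero] at h2
    exact h2.eventually_lt_const (by positivity)
  obtain ⟨ρ2, hρ2, hb2⟩ := Metric.mem_nhds_iff.1 hcont
  obtain ⟨B, hB⟩ : ∃ B, B = |C| * κ ^ (2 * m + 2) := ⟨_, rfl⟩
  have hκ1 : 1 ≤ κ ^ (2 * m + 2) := one_le_pow₀ hκ
  have hB0 : 0 ≤ B := by rw [hB]; positivity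
  refine ⟨min ρ2 (c / (4 * (B + 1))), lt_min hρ2 (by positivity), fun p δ hp hδ hδε =>
    ⟨V, hVn, fun v hv hv0 => ?_⟩⟩
  rw [← hg]
  have hvn : 0 < ‖v‖ := norm_pos_iff.2 hv0
  have h1 : c * ‖v‖ ≤ ‖fderiv ℝ g 0 v‖ := hcl ⟨v, hv⟩
  have h2 : ‖(fderiv ℝ g p - fderiv ℝ g 0) v‖ ≤ c / 2 * ‖v‖ := by
    refine (ContinuousLinearMap.le_opNorm _ _).trans ?_
    have : ‖fderiv ℝ g p - fderiv ℝ g 0‖ < c / 2 :=
      hb2 (mem_ball_zero_iff.2 (hp.trans_le (min_le_left _ _)))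
    gcongr
  have h3 : ‖fderiv ℝ g 0 v‖ ≤ ‖fderiv ℝ g p v‖ + ‖(fderiv ℝ g p - fderiv ℝ g 0) v‖ := by
    calc ‖fderiv ℝ g 0 v‖ = ‖fderiv ℝ g p v - (fderiv ℝ g p - fderiv ℝ g 0) v‖ := by
          congr 1
          rw [sub_apply]
          abel
      _ ≤ _ := norm_sub_le _ _
  have h4 : C * κ ^ (2 * m + 2) * δ ≤ B * δ := by
    rw [hB]
    gcongr
    exact le_abs_self C
  have h5 : B * δ ≤ c / 4 := by
    have h6 : δ ≤ c / (4 * (B + 1)) := (hδε.trans_le (min_le_right _ _)).le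
    rw [le_div_iff₀ (by positivity)] at h6
    nlinarith
  have h7 : C * κ ^ (2 * m + 2) * δ * ‖v‖ ≤ c / 4 * ‖v‖ := by
    have := h4.trans h5
    gcongr
  nlinarith

/-- the margin on the vertical vectors -/
def QVert (m : ℕ) {W : Type} [NormedAddCommGroup W] [NormedSpace ℝ W] {X : Type}
    [TopologicalSpace X] [ChartedSpace (E m) X] (V : Vec m X) (C : ℝ)
    (A : E m → X) (p : E m) (L : E m →L[ℝ] W) (κ δ : ℝ) : Prop :=
  ∀ v : E m, v ≠ 0 → V (A p) (mfderiv (𝓡 m) (𝓡 m) A p v) →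
    C * κ ^ (2 * m + 2) * δ * ‖v‖ < ‖L v‖

/-- coarse fibrewise immersions give fibrewise immersions -/
theorem forwardVert [T2Space X] [LocallyCompactSpace X] [SecondCountableTopology X]
    [IsManifold (𝓡 m) ∞ X] {em : N → W} {P : W → N} {δ0 Cr : ℝ}
    (hret : Retr n em P δ0 Cr) {C : ℝ} (hC : 2 * C2 m Cr ≤ C) (V : Vec m X) {d : X → X → ℝ}
    {S : Set ℝ} (hS : (0 : ℝ) ∈ closure (S ∩ Ioi 0)) {U Z : Set X} (hU : IsOpen U)
    (hZ : IsClosed Z) (hZU : Z ⊆ U) (hK : IsCompact Uᶜ) {f : ℝ → X → N} {F₀ : X → N}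
    (hF₀ : ContMDiff (𝓡 m) (𝓡 n) ∞ F₀) (hf0 : ∀ r ∈ S, ∀ x ∈ U, f r x = F₀ x)
    (hf : ∀ x, x ∉ U → CRT m em d S f (QVert m V C) x) :
    ∃ (F : X → N) (K : Set X), IsCompact K ∧ Disjoint K Z ∧ ContMDiff (𝓡 m) (𝓡 n) ∞ F ∧
      (∀ x, x ∉ K → F x = F₀ x) ∧
      ∀ x, (∀ v : TangentSpace (𝓡 m) x, V x v → mfderiv (𝓡 m) (𝓡 n) F x v = 0 → v = 0) ∨
        (x ∈ U ∧ F =ᶠ[𝓝 x] F₀) := by
  obtain ⟨F, K, hKc, hKZ, hF, hK0, hreg⟩ := master hret hS hU hZ hZU hK hF₀ hf0 hf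
  refine ⟨F, K, hKc, hKZ, hF, hK0, fun x => ?_⟩
  rcases hreg x with ⟨A, p, L, κ, δ, rfl, hA, hκ, hδ, hQ, hcl⟩ | h
  · left
    intro u hu h0
    obtain ⟨v, rfl⟩ : ∃ v : E m, mfderiv (𝓡 m) (𝓡 m) A p v = u := by
      have h := hA.mfderivToContinuousLinearEquiv_coe (by simp)
      refine ⟨(hA.mfderivToContinuousLinearEquiv (by simp)).symm u, ?_⟩
      rw [← h]
      exact (hA.mfderivToContinuousLinearEquiv (by simp)).apply_symm_apply u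
    by_cases hv0 : v = 0
    · rw [hv0]
      exact ContinuousLinearMap.map_zero _
    · exfalso
      have h1 := hQ v hv0 hu
      have h2 := hcl v
      rw [fd_eq hret.si hF hA, h0] at h2
      have h4 : mfderiv (𝓡 n) 𝓘(ℝ, W) em (F (A p)) 0 = 0 := ContinuousLinearMap.map_zero _
      rw [h4] at h2
      have e0 : ‖(0 : W) - L v‖ = ‖L v‖ := by rw [zero_sub, norm_neg]
      have h2' : ‖L v‖ ≤ C2 m Cr * κ ^ (2 * m + 2) * δ * ‖v‖ + 1 / 2 * ‖L v‖ :=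
        e0.symm.le.trans h2
      have h5 : 2 * (C2 m Cr * κ ^ (2 * m + 2) * δ * ‖v‖) ≤
          C * κ ^ (2 * m + 2) * δ * ‖v‖ := by
        have e1 : 2 * (C2 m Cr * κ ^ (2 * m + 2) * δ * ‖v‖) =
          (2 * C2 m Cr) * (κ ^ (2 * m + 2) * δ * ‖v‖) := by ring
        have e2 : C * κ ^ (2 * m + 2) * δ * ‖v‖ = C * (κ ^ (2 * m + 2) * δ * ‖v‖) := by ring
        rw [e1, e2]
        gcongr
      linarith
  · exact Or.inr h

end Pool.Agent.N824.CT
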