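import Pool.Agent.N824.CT.Apps

/-!
# Submersions with a prescribed germ along a closed set
-/

set_option autoImplicit false
set_option maxSynthPendingDepth 3

open Set Filter Topology Metric Function MeasureTheory
open scoped Manifold ContDiff Convolution

set_option linter.unusedSectionVars false

noncomputable section

namespace Pool.Agent.N824.CT

open Pool.Agent.Y522 Pool.Agent.Y954.SH Pool.Agent.N824.CR Pool.Agent.N824.CN Pool.Agent.N824.CJ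

/-- submersions with a prescribed germ along `Z` -/
theorem mainSub (m n : ℕ) {W : Type} [NormedAddCommGroup W] [InnerProductSpace ℝ W]
    [FiniteDimensional ℝ W] {N : Type} [TopologicalSpace N] [ChartedSpace (E n) N]
    [IsManifold (𝓡 n) ∞ N] [CompactSpace N] [T2Space N] [Nonempty N] {em : N → W}
    (hem : ContMDiff (𝓡 n) 𝓘(ℝ, W) ∞ em) (hinj : Injective em)
    (himm : ∀ y, ∃ A : E n → N, A 0 = y ∧ LD n A 0 ∧
      ∀ v, fderiv ℝ (fun z => em (A z)) 0 v = 0 → v = 0) :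
    ∃ C₀ : ℝ, ∀ C, C₀ ≤ C → ∀ (X : Type) [TopologicalSpace X] [ChartedSpace (E m) X]
      [IsManifold (𝓡 m) ∞ X] [CompactSpace X] [T2Space X] (Z : Set X), IsClosed Z →
      ∀ F₀ : X → N, ContMDiff (𝓡 m) (𝓡 n) ∞ F₀ →
      ((∃ F : X → N, ContMDiff (𝓡 m) (𝓡 n) ∞ F ∧ (∃ O : Set X, IsOpen O ∧ Z ⊆ O ∧
          ∀ x ∈ O, F x = F₀ x) ∧ ∀ x, x ∉ Z → Surjective (mfderiv (𝓡 m) (𝓡 n) F x)) ↔
        ∃ (U : Set X) (d : X → X → ℝ) (S : Set ℝ) (f : ℝ → X → N), IsOpen U ∧ Z ⊆ U ∧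
          (∀ x ∈ U, x ∉ Z → Surjective (mfderiv (𝓡 m) (𝓡 n) F₀ x)) ∧
          (0 : ℝ) ∈ closure (S ∩ Ioi 0) ∧ (∀ r ∈ S, ∀ x ∈ U, f r x = F₀ x) ∧
          ∀ x, x ∉ U → CRT m em d S f (QSub m n C) x) := by
  obtain ⟨P, δ0, Cr, hret⟩ := exists_retr hem hinj himm
  refine ⟨2 * C2 m Cr, fun C hC X _ _ _ _ _ Z hZ F₀ hF₀ => ⟨?_, ?_⟩⟩
  · rintro ⟨F, hF, ⟨O, hO, hZO, hFO⟩, hs⟩
    obtain ⟨d, hd⟩ := exists_dist (n := m) (X := X)
    have hnear : ∀ x ∈ O, F₀ =ᶠ[𝓝 x] F := fun x hx => by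
      filter_upwards [hO.mem_nhds hx] with y hy
      exact (hFO y hy).symm
    refine ⟨O, d, univ, fun _ => F, hO, hZO, fun x hx hxZ => ?_, ?_, fun _ _ => hFO,
      fun x hx => ?_⟩
    · rw [(hnear x hx).mfderiv_eq]
      exact hs x hxZ
    · rw [univ_inter, closure_Ioi]
      exact self_mem_Ici
    · obtain ⟨A, rfl, hA⟩ := exists_param (n := m) x
      obtain ⟨κ, ρ, hκ, hρ, hbi⟩ := hd A hA
      exact backwardSub hret C univ hF hA hκ hρ hbi (hs _ fun h => hx (hZO h))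
  · rintro ⟨U, d, S, f, hU, hZU, hFU, hS, hfU, hf⟩
    have : LocallyCompactSpace X := ChartedSpace.locallyCompactSpace (E m) X
    have : SecondCountableTopology X := ChartedSpace.secondCountable_of_sigmaCompact (E m) X
    obtain ⟨F, K, hK, hKZ, hF, hK0, hreg⟩ := forwardSub hret hC hS hU hZ hZU
      hU.isClosed_compl.isCompact hF₀ hfU hf
    refine ⟨F, hF, ⟨Kᶜ, hK.isClosed.isOpen_compl, fun x hx hxK => disjoint_left.1 hKZ hxK hx,
      fun x hx => hK0 x hx⟩, fun x hx => ?_⟩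
    rcases hreg x with h | ⟨hxU, h⟩
    · exact h
    · rw [h.mfderiv_eq]
      exact hFU x hxU hx

/-- a uniform lower bound on kernels -/
theorem lower_ker {m : ℕ} {W W' : Type} [NormedAddCommGroup W] [NormedSpace ℝ W]
    [NormedAddCommGroup W'] [NormedSpace ℝ W'] {D : E m → E m →L[ℝ] W'} (hD : ContinuousAt D 0)
    {G : E m → E m →L[ℝ] W} (hG : ContinuousAt G 0) (h : ∀ v, D 0 v = 0 → G 0 v = 0 → v = 0) :
    ∃ c ρ : ℝ, 0 < c ∧ 0 < ρ ∧ ∀ p, ‖p‖ < ρ → ∀ v, D p v = 0 → c * ‖v‖ ≤ ‖G p v‖ := by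
  obtain ⟨c, hc, hcl⟩ := exists_lower ((D 0).prod (G 0)).toLinearMap (by
    rw [← LinearMap.ker_eq_bot, LinearMap.ker_eq_bot']
    intro v hv
    have h1 : ((D 0) v, (G 0) v) = 0 := hv
    exact h v (congrArg Prod.fst h1) (congrArg Prod.snd h1))
  have q1 : ∀ᶠ p in 𝓝 (0 : E m), ‖D p - D 0‖ < c / 2 := by
    have h1 : Tendsto (fun p => ‖D p - D 0‖) (𝓝 0) (𝓝 ‖D 0 - D 0‖) :=
      (hD.sub continuousAt_const).norm
    rw [sub_self, norm_zero] at h1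
    exact h1.eventually_lt_const (by positivity)
  have q2 : ∀ᶠ p in 𝓝 (0 : E m), ‖G p - G 0‖ < c / 2 := by
    have h1 : Tendsto (fun p => ‖G p - G 0‖) (𝓝 0) (𝓝 ‖G 0 - G 0‖) :=
      (hG.sub continuousAt_const).norm
    rw [sub_self, norm_zero] at h1
    exact h1.eventually_lt_const (by positivity)
  obtain ⟨ρ, hρ, hb⟩ := Metric.mem_nhds_iff.1 (q1.and q2)
  refine ⟨c / 2, ρ, by positivity, hρ, fun p hp v hv => ?_⟩
  obtain ⟨h1, h2⟩ := hb (mem_ball_zero_iff.2 hp)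
  have h3 : c * ‖v‖ ≤ ‖((D 0 v, G 0 v) : W' × W)‖ := hcl v
  have h4 : ‖D 0 v‖ ≤ c / 2 * ‖v‖ := by
    have e1 : D 0 v = -((D p - D 0) v) := by
      rw [sub_apply, hv, zero_sub, neg_neg]
    rw [e1, norm_neg]
    exact (ContinuousLinearMap.le_opNorm _ _).trans (by gcongr)
  have h5 : ‖(G p - G 0) v‖ ≤ c / 2 * ‖v‖ :=
    (ContinuousLinearMap.le_opNorm _ _).trans (by gcongr)
  have h6 : ‖G 0 v‖ ≤ ‖G p v‖ + ‖(G p - G 0) v‖ := by
    calc ‖G 0 v‖ = ‖G p v - (G p - G 0) v‖ := by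
          congr 1
          rw [sub_apply]
          abel
      _ ≤ _ := norm_sub_le _ _
  rw [Prod.norm_def] at h3
  rcases le_max_iff.1 h3 with h7 | h7
  · have h8 : c / 2 * ‖v‖ ≤ 0 := by linarith
    exact h8.trans (norm_nonneg _)
  · have h7' : c * ‖v‖ ≤ ‖G 0 v‖ := h7
    linarith

/-- families of local diffeomorphisms, as maps on the total space of a submersion -/
theorem mainVert (m n : ℕ) {W : Type} [NormedAddCommGroup W] [InnerProductSpace ℝ W]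
    [FiniteDimensional ℝ W] {N : Type} [TopologicalSpace N] [ChartedSpace (E n) N]
    [IsManifold (𝓡 n) ∞ N] [CompactSpace N] [T2Space N] [Nonempty N] {em : N → W}
    (hem : ContMDiff (𝓡 n) 𝓘(ℝ, W) ∞ em) (hinj : Injective em)
    (himm : ∀ y, ∃ A : E n → N, A 0 = y ∧ LD n A 0 ∧
      ∀ v, fderiv ℝ (fun z => em (A z)) 0 v = 0 → v = 0) :
    ∃ C₀ : ℝ, ∀ C, C₀ ≤ C → ∀ (X : Type) [TopologicalSpace X] [ChartedSpace (E m) X]
      [IsManifold (𝓡 m) ∞ X] [T2Space X] [SecondCountableTopology X] (W' : Type)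
      [NormedAddCommGroup W'] [NormedSpace ℝ W'] (B : Type) [TopologicalSpace B]
      [ChartedSpace W' B] [IsManifold 𝓘(ℝ, W') ∞ B] (π : X → B),
      ContMDiff (𝓡 m) 𝓘(ℝ, W') ∞ π → (∀ x, Surjective (mfderiv (𝓡 m) 𝓘(ℝ, W') π x)) →
      ∀ Z : Set X, IsClosed Z →
      ∀ F₀ : X → N, ContMDiff (𝓡 m) (𝓡 n) ∞ F₀ →
      ((∃ (F : X → N) (K : Set X), ContMDiff (𝓡 m) (𝓡 n) ∞ F ∧ IsCompact K ∧ Disjoint K Z ∧
          (∀ x, x ∉ K → F x = F₀ x) ∧ ∀ (x : X) (v : TangentSpace (𝓡 m) x),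
          mfderiv (𝓡 m) 𝓘(ℝ, W') π x v = 0 → mfderiv (𝓡 m) (𝓡 n) F x v = 0 → v = 0) ↔
        ∃ (U : Set X) (d : X → X → ℝ) (S : Set ℝ) (f : ℝ → X → N), IsOpen U ∧ Z ⊆ U ∧
          IsCompact Uᶜ ∧ (∀ x ∈ U, ∀ v : TangentSpace (𝓡 m) x,
            mfderiv (𝓡 m) 𝓘(ℝ, W') π x v = 0 → mfderiv (𝓡 m) (𝓡 n) F₀ x v = 0 → v = 0) ∧
          (0 : ℝ) ∈ closure (S ∩ Ioi 0) ∧ (∀ r ∈ S, ∀ x ∈ U, f r x = F₀ x) ∧
          ∀ x, x ∉ U → CRT m em d S f (QVert m (VertV W' π) C) x) := by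
  obtain ⟨P, δ0, Cr, hret⟩ := exists_retr hem hinj himm
  refine ⟨2 * C2 m Cr, fun C hC X _ _ _ _ _ W' _ _ B _ _ _ π hπ hπs Z hZ F₀ hF₀ => ?_⟩
  have : LocallyCompactSpace X := ChartedSpace.locallyCompactSpace (E m) X
  constructor
  · rintro ⟨F, K, hF, hK, hKZ, hF0, hs⟩
    obtain ⟨K1, hK1, h01, h1Z⟩ := exists_compact_between hK hZ.isOpen_compl
      (disjoint_left.1 hKZ)
    obtain ⟨d, hd⟩ := exists_distK (n := m) (X := X) hK1
    have hnear : ∀ x, x ∉ K → F₀ =ᶠ[𝓝 x] F := fun x hx => by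
      filter_upwards [hK.isClosed.isOpen_compl.mem_nhds hx] with y hy
      exact (hF0 y hy).symm
    have hKK1 : ∀ x, x ∉ K1 → x ∉ K := fun x hx hxK => hx (interior_subset (h01 hxK))
    refine ⟨K1ᶜ, d, univ, fun _ => F, hK1.isClosed.isOpen_compl, fun x hx hx1 => h1Z hx1 hx,
      by rwa [compl_compl], fun x hx v hv h0 => ?_, ?_, fun _ _ x hx => hF0 x (hKK1 x hx),
      fun x hx => ?_⟩
    · rw [(hnear x (hKK1 x hx)).mfderiv_eq] at h0
      exact hs x v hv h0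
    · rw [univ_inter, closure_Ioi]
      exact self_mem_Ici
    · have hxK : x ∈ K1 := not_not.1 hx
      obtain ⟨A, rfl, hA⟩ := exists_param (n := m) x
      obtain ⟨κ, ρ, hκ, hρ, hbi⟩ := hd A hA hxK
      refine backwardT hret.si hF hA hκ hρ hbi ?_
      obtain ⟨D, hDc, -, hD⟩ := vert_local hπ hπs hA
      have hgs : ContDiffAt ℝ ∞ (fun z => em (F (A z))) 0 := by
        have k1 : ContMDiffAt (𝓡 m) (𝓡 n) ∞ (F ∘ A) 0 := (hF (A 0)).comp 0 hA.contMDiffAt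
        have k2 : ContMDiffAt (𝓡 m) 𝓘(ℝ, W) ∞ (em ∘ (F ∘ A)) 0 :=
          ContMDiffAt.comp 0 (hret.si _) k1
        exact contMDiffAt_iff_contDiffAt.1 k2
      obtain ⟨c, ρ1, hc, hρ1, hcl⟩ := lower_ker hDc
        (hgs.fderiv_right (m := 0) (by simp)).continuousAt (fun v hv h0 => by
          have h1 := (hD.self_of_nhds v).1 hv
          rw [fd_eq hret.si hF hA] at h0
          have h2 := hs _ _ h1 (Retr.imm hret _ _ h0)
          exact hA.mfderiv_injective (h2.trans (ContinuousLinearMap.map_zero _).symm))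
      obtain ⟨ρ2, hρ2, hb2⟩ := Metric.mem_nhds_iff.1 hD
      obtain ⟨B', hB'⟩ : ∃ B', B' = |C| * κ ^ (2 * m + 2) := ⟨_, rfl⟩
      have hκ1 : 1 ≤ κ ^ (2 * m + 2) := one_le_pow₀ hκ
      have hB0 : 0 ≤ B' := by rw [hB']; positivity
      refine ⟨min (min ρ1 ρ2) (c / (4 * (B' + 1))),
        lt_min (lt_min hρ1 hρ2) (by positivity), fun p δ hp hδ hδε v hv0 hV => ?_⟩
      have hDp := hb2 (mem_ball_zero_iff.2
        (hp.trans_le ((min_le_left _ _).trans (min_le_right _ _))))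
      have h1 := hcl p (hp.trans_le ((min_le_left _ _).trans (min_le_left _ _))) v
        ((hDp v).2 hV)
      have hvn : 0 < ‖v‖ := norm_pos_iff.2 hv0
      have h4 : C * κ ^ (2 * m + 2) * δ ≤ B' * δ := by
        rw [hB']
        gcongr
        exact le_abs_self C
      have h5 : B' * δ ≤ c / 4 := by
        have h6 : δ ≤ c / (4 * (B' + 1)) := (hδε.trans_le (min_le_right _ _)).le
        rw [le_div_iff₀ (by positivity)] at h6
        nlinarith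
      have h7 : C * κ ^ (2 * m + 2) * δ * ‖v‖ ≤ c / 4 * ‖v‖ := by
        have := h4.trans h5
        gcongr
      nlinarith
  · rintro ⟨U, d, S, f, hU, hZU, hUK, hFU, hS, hfU, hf⟩
    obtain ⟨F, K, hK, hKZ, hF, hK0, hreg⟩ := forwardVert hret hC (VertV W' π) hS hU hZ hZU
      hUK hF₀ hfU hf
    refine ⟨F, K, hF, hK, hKZ, hK0, fun x v hv h0 => ?_⟩
    rcases hreg x with h | ⟨hxU, h⟩
    · exact h v hv h0
    · rw [h.mfderiv_eq] at h0
      exact hFU x hxU v hv h0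

end Pool.Agent.N824.CT
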