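import Pool.Agent.N824.CJ.GlobR

/-!
# Local estimates for families of maps which are affine in the mean: with values
-/

set_option autoImplicit false
set_option maxSynthPendingDepth 3

open Set Filter Topology Metric Function MeasureTheory
open scoped Manifold ContDiff Convolution

set_option linter.unusedSectionVars false

noncomputable section

namespace Pool.Agent.N824.CJ

open Pool.Agent.Y522 Pool.Agent.Y954.SH Pool.Agent.N824.CR Pool.Agent.N824.CN

variable {n : ℕ} {W : Type} [NormedAddCommGroup W] [NormedSpace ℝ W] [FiniteDimensional ℝ W]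

variable {X : Type} [TopologicalSpace X] [ChartedSpace (E n) X]

section

variable {ι : Type} [Fintype ι] {d : X → X → ℝ}
  {F : ℝ → X → W} {S : Set ℝ} {A : ι → E n → X}
  {B : ι → X → E n} {R κ : ι → ℝ} {χ : ι → X → ℝ}

/-- the local claim -/
theorem FamK.locN (hf : FamK n ι d F S A B R κ χ) {x0 : X}
    (hone : ∀ᶠ x in 𝓝 x0, ∑ i, χ i x = 1) :
    ∃ i1, x0 ∈ A i1 '' ball 0 (R i1) ∧ ∀ τ : ℝ → ℝ, Tendsto τ (𝓝[>] 0) (𝓝 0) →
      ∀ᶠ z : ℝ × X in 𝓝[S ∩ Ioi 0] (0 : ℝ) ×ˢ 𝓝 x0,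
      z.1 < R i1 ∧ z.2 ∈ A i1 '' ball 0 (R i1) ∧
      (∀ᶠ x in 𝓝 z.2, ContMDiffAt (𝓡 n) 𝓘(ℝ, W) ∞ (GJ (F z.1) A B R χ z.1) x) ∧
      ∀ (δ : ℝ) (L : E n →L[ℝ] W) (c : W), 0 ≤ δ → ‖L‖ * z.1 ≤ δ * τ z.1 →
        IntegrableOn (fun y => F z.1 (A i1 y)) (closedBall (B i1 z.2) (κ i1 ^ 2 * z.1)) →
        ∫ q in closedBall (B i1 z.2) (κ i1 ^ 2 * z.1),
          ‖F z.1 (A i1 q) - c - L (q - B i1 z.2)‖ ≤ δ * z.1 ^ (n + 1) →
        ‖fderiv ℝ (fun y => GJ (F z.1) A B R χ z.1 (A i1 y)) (B i1 z.2) - L‖ ≤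
          CJ n * κ i1 ^ (2 * n + 2) * δ ∧
        ‖GJ (F z.1) A B R χ z.1 z.2 - c‖ ≤
          MK n * (z.1 * (κ i1 ^ (2 * n) * δ + ‖L‖ * κ i1 ^ 2 * VB n)) := by
  classical
  obtain ⟨I, hI⟩ : ∃ I : Finset ι, ∀ i, i ∈ I ↔ x0 ∈ tsupport (χ i) :=
    ⟨Finset.univ.filter fun i => x0 ∈ tsupport (χ i), fun i => by simp⟩
  have hIne : I.Nonempty := by
    have h1 := hone.self_of_nhds
    obtain ⟨i, -, hi⟩ := Finset.exists_ne_zero_of_sum_ne_zero (by rw [h1]; exact one_ne_zero)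
    exact ⟨i, (hI i).2 (subset_tsupport _ hi)⟩
  obtain ⟨i1, hi1, hmax⟩ := Finset.exists_max_image I (fun i => κ i) hIne
  have hz : ∀ᶠ x in 𝓝 x0, ∀ i, i ∉ I → χ i x = 0 := by
    refine Filter.eventually_all.2 fun i => ?_
    by_cases hi : i ∈ I
    · exact Eventually.of_forall fun x h => absurd hi h
    · have h1 : x0 ∉ tsupport (χ i) := fun h => hi ((hI i).2 h)
      have h2 : χ i =ᶠ[𝓝 x0] 0 := notMem_tsupport_iff_eventuallyEq.1 h1
      filter_upwards [h2] with x hx _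
      exact hx
  have hsum : ∀ᶠ x in 𝓝 x0, (∑ i ∈ I, χ i x = 1) ∧
        ∀ r, ∑ i ∈ I, χ i x • Ml n (fun z => F r (A i z)) (R i) r (B i x) =
          GJ (F r) A B R χ r x := by
    filter_upwards [hz, hone] with x hx hx1
    have e1 : ∑ i ∈ I, χ i x = ∑ i, χ i x :=
      Finset.sum_subset (Finset.subset_univ I) fun i _ hi => hx i hi
    refine ⟨e1.trans hx1, fun r => ?_⟩
    unfold GJ
    refine Finset.sum_subset (Finset.subset_univ I) fun i _ hi => ?_
    rw [hx i hi, zero_smul]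
  have hW : ∀ i ∈ I, x0 ∈ A i '' ball 0 (R i) := fun i hi => hf.sup i ((hI i).1 hi)
  have hW1 := hW i1 hi1
  -- transitions from the reference chart
  have htr : ∀ i : ι, ∃ ρ : ℝ, 0 < ρ ∧ (i ∈ I → ∀ p, ‖p - B i1 x0‖ < ρ → ‖p‖ < R i1 ∧
      A i1 p ∈ A i '' ball 0 (R i) ∧
        LD n (fun z => B i (A i1 z)) p ∧
        ‖fderiv ℝ (fun z => B i (A i1 z)) p‖ ≤ κ i1 * κ i) := by
    intro i
    by_cases hi : i ∈ I
    · obtain ⟨ρ, h1, h2, h3⟩ := (hf.cht i1).trans (hf.cht i) hW1 (hW i hi) one_pos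
      refine ⟨ρ, h1, fun _ p hp => ?_⟩
      obtain ⟨b1, b2, b3, b4, b5⟩ := h2 p hp
      exact ⟨b1, b2, b3, b5⟩
    · exact ⟨1, one_pos, fun h => absurd h hi⟩
  choose ρ hρ0 hρ using htr
  -- transitions to the reference chart
  have htr' : ∀ i : ι, ∃ ρ C : ℝ, 0 < ρ ∧ 0 ≤ C ∧ (i ∈ I → (∀ p, ‖p - B i x0‖ < ρ → ‖p‖ < R i ∧
      A i p ∈ A i1 '' ball 0 (R i1) ∧
        LD n (fun z => B i1 (A i z)) p) ∧
      (∀ p q, ‖p - B i x0‖ < ρ → ‖q - B i x0‖ < ρ →
        ‖B i1 (A i q) - B i1 (A i p)‖ ≤ κ i * κ i1 * ‖q - p‖) ∧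
      ∀ p r, (∀ q, ‖q - p‖ ≤ r → ‖q - B i x0‖ < ρ) →
      ∀ q q', ‖q - p‖ ≤ r → ‖q' - p‖ ≤ r →
        ‖B i1 (A i q') - B i1 (A i q) - fderiv ℝ (fun z => B i1 (A i z)) p (q' - q)‖ ≤
          C * r * ‖q' - q‖) := by
    intro i
    by_cases hi : i ∈ I
    · obtain ⟨ρ, h1, h2, h3⟩ := (hf.cht i).trans (hf.cht i1) (hW i hi) hW1 one_pos
      have h0 : ‖B i x0 - B i x0‖ < ρ := by rwa [sub_self, norm_zero]
      obtain ⟨ρq, C, h4, h5, h6⟩ := quad_ball (h2 _ h0).2.2.1.contDiffAt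
      refine ⟨min ρ ρq, C, lt_min h1 h4, h5, fun _ => ⟨fun p hp => ?_, fun p q hp hq => ?_,
        fun p r hpr q q' hq hq' => ?_⟩⟩
      · obtain ⟨b1, b2, b3, -, -⟩ := h2 p (hp.trans_le (min_le_left _ _))
        exact ⟨b1, b2, b3⟩
      · exact (h3 p q (hp.trans_le (min_le_left _ _)) (hq.trans_le (min_le_left _ _))).2
      · exact h6 p r (fun q hq => (hpr q hq).trans_le (min_le_right _ _)) q q' hq hq'
    · exact ⟨1, 0, one_pos, le_rfl, fun h => absurd h hi⟩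
  choose ρ' Cq hρ'0 hCq hρ' using htr'
  -- the bound of the derivatives of the weights
  obtain ⟨D, hD⟩ : ∃ D : ℝ, D = ∑ o : ι,
      (‖fderiv ℝ (fun y => χ o (A i1 y)) (B i1 x0)‖ + 1) := ⟨_, rfl⟩
  have hD0 : 0 ≤ D := by rw [hD]; positivity
  have hDe : ∀ᶠ p in 𝓝 (B i1 x0), ∀ o : ι,
      ‖fderiv ℝ (fun y => χ o (A i1 y)) p‖ ≤ D := by
    refine Filter.eventually_all.2 fun o => ?_
    have h1 := hf.contDiffAt o (i := i1) ((hf.cht i1).mem hW1).le
    have h2 : ContinuousAt (fderiv ℝ (fun y => χ o (A i1 y))) (B i1 x0) :=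
      (h1.fderiv_right (m := 0) (by simp)).continuousAt
    have h3 : ‖fderiv ℝ (fun y => χ o (A i1 y)) (B i1 x0)‖ <
        ‖fderiv ℝ (fun y => χ o (A i1 y)) (B i1 x0)‖ + 1 := by linarith
    filter_upwards [h2.norm.eventually_lt_const h3] with p hp
    refine hp.le.trans ?_
    rw [hD]
    exact Finset.single_le_sum
      (f := fun o => ‖fderiv ℝ (fun y => χ o (A i1 y)) (B i1 x0)‖ + 1)
      (fun o _ => by positivity) (Finset.mem_univ o)
  obtain ⟨Cs, hCs⟩ : ∃ Cs : ℝ, Cs = ∑ i, Cq i := ⟨_, rfl⟩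
  have hCs0 : 0 ≤ Cs := by rw [hCs]; exact Finset.sum_nonneg fun i _ => hCq i
  have hCsi : ∀ i, Cq i ≤ Cs := fun i => by
    rw [hCs]
    exact Finset.single_le_sum (fun i _ => hCq i) (Finset.mem_univ i)
  refine ⟨i1, hW1, fun τ hτ => ?_⟩
  -- limits
  obtain ⟨l, hl⟩ : ∃ l : Filter (ℝ × X), l = 𝓝[S ∩ Ioi 0] (0 : ℝ) ×ˢ 𝓝 x0 := ⟨_, rfl⟩
  rw [← hl]
  have l1 : Tendsto (fun z : ℝ × X => z.1) l (𝓝 0) := by
    rw [hl]
    exact tendsto_fst.mono_right nhdsWithin_le_nhds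
  have l1' : Tendsto (fun z : ℝ × X => z.1) l (𝓝[>] 0) := by
    rw [hl]
    exact tendsto_fst.mono_right (nhdsWithin_mono _ inter_subset_right)
  have l0 : ∀ᶠ z : ℝ × X in l, z.1 ∈ S ∩ Ioi 0 := by
    rw [hl]
    have : ∀ᶠ r in 𝓝[S ∩ Ioi 0] (0 : ℝ), r ∈ S ∩ Ioi 0 := self_mem_nhdsWithin
    exact this.prod_inl _
  have lH : Tendsto (fun z : ℝ × X => τ z.1) l (𝓝 0) := hτ.comp l1'
  have l2 : Tendsto (fun z : ℝ × X => z.2) l (𝓝 x0) := by
    rw [hl]
    exact tendsto_snd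
  have lB : ∀ i ∈ I, Tendsto (fun z : ℝ × X => B i z.2) l (𝓝 (B i x0)) := fun i hi =>
    ((hf.cht i).ldB (hW i hi)).continuousAt.tendsto.comp l2
  have q1 : ∀ᶠ z in l, ∀ i ∈ I, ‖B i1 z.2 - B i1 x0‖ < ρ i := by
    refine (Finset.eventually_all I).2 fun i _ => ?_
    have h1 : Tendsto (fun z : ℝ × X => ‖B i1 z.2 - B i1 x0‖) l
        (𝓝 (‖B i1 x0 - B i1 x0‖)) := ((lB i1 hi1).sub_const _).norm
    rw [sub_self, norm_zero] at h1
    exact h1.eventually_lt_const (hρ0 i)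
  have q1' : ∀ᶠ z in l, ∀ i ∈ I, ‖B i z.2 - B i x0‖ + z.1 < ρ' i := by
    refine (Finset.eventually_all I).2 fun i hi => ?_
    have h1 : Tendsto (fun z : ℝ × X => ‖B i z.2 - B i x0‖ + z.1) l
        (𝓝 (‖B i x0 - B i x0‖ + 0)) :=
      (((lB i hi).sub_const _).norm).add l1
    rw [sub_self, norm_zero, add_zero] at h1
    exact h1.eventually_lt_const (hρ'0 i)
  have q2 : ∀ᶠ z in l, ∀ i ∈ I, ‖B i z.2‖ + z.1 < R i := by
    refine (Finset.eventually_all I).2 fun i hi => ?_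
    have h1 : Tendsto (fun z : ℝ × X => ‖B i z.2‖ + z.1) l (𝓝 (‖B i x0‖ + 0)) :=
      ((lB i hi).norm).add l1
    rw [add_zero] at h1
    exact h1.eventually_lt_const ((hf.cht i).mem (hW i hi))
  have q3 : ∀ᶠ z in l, ∀ i ∈ I, z.2 ∈ A i '' ball 0 (R i) := by
    refine (Finset.eventually_all I).2 fun i hi => ?_
    exact l2.eventually ((hf.cht i).isOpen.mem_nhds (hW i hi))
  have small : ∀ (c b : ℝ) (f : ℝ × X → ℝ), Tendsto f l (𝓝 0) → 0 < b →
      ∀ᶠ z in l, c * f z < b := by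
    intro c b f hf0 hb
    have h1 : Tendsto (fun z : ℝ × X => c * f z) l (𝓝 (c * 0)) := hf0.const_mul _
    rw [mul_zero] at h1
    exact h1.eventually_lt_const hb
  have q4 := small (κ i1 ^ 2 * (MD n * (Cs * VB n)) +
    I.card * (D * (MK n * (κ i1 ^ 2 * VB n)))) (1 / 2) _ lH (by norm_num)
  have q4' := small (I.card * (D * (MK n * κ i1 ^ (2 * n)))) (1 / 2) _ l1 (by norm_num)
  have q5 := l2.eventually hsum.eventually_nhds
  have q6 := (lB i1 hi1).eventually hDe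
  have q9 : ∀ᶠ z in l, ∀ i ∈ I, z.1 < R i :=
    (Finset.eventually_all I).2 fun i _ => l1.eventually_lt_const (hf.cht i).pos
  filter_upwards [l0, q1, q1', q2, q3, q4, q4', q5, q6, q9] with z z0' z1 z1' z2 z3 z4 z4' z5 z6 z9
  obtain ⟨r, x⟩ := z
  simp only at z0' z1 z1' z2 z3 z4 z4' z5 z6 z9 ⊢
  obtain ⟨zS, z0⟩ := z0'
  replace z0 : 0 < r := z0
  have hx1 := z3 i1 hi1
  obtain ⟨p, hp⟩ : ∃ p, p = B i1 x := ⟨_, rfl⟩
  have hAp : A i1 p = x := by rw [hp]; exact (hf.cht i1).right hx1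
  have hpR : ‖p‖ < R i1 := by rw [hp]; exact (hf.cht i1).mem hx1
  rw [← hp] at z1 z6
  have hAc : ContinuousAt (A i1) p := ((hf.cht i1).ld p hpR.le).continuousAt
  have hκ1 := (hf.cht i1).one
  have hκ2 : 1 ≤ κ i1 ^ 2 := one_le_pow₀ hκ1
  obtain ⟨G, hG⟩ : ∃ G : X → W, G = F r := ⟨_, rfl⟩
  have hiF : ∀ i ∈ I, IntegrableOn (fun w => G (A i w)) (closedBall 0 (R i)) := fun i hi => by
    rw [hG]
    exact hf.iF i r zS z0 (z9 i hi)
  -- the patched map
  obtain ⟨fs, hfs⟩ : ∃ fs : E n → W, fs = fun y => ∑ i ∈ I, χ i (A i1 y) •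
      Ml n (fun w => G (A i w)) (R i) r (B i (A i1 y)) := ⟨_, rfl⟩
  have z5' : ∀ᶠ y in 𝓝 p, (∑ i ∈ I, χ i (A i1 y) = 1) ∧
      ∑ i ∈ I, χ i (A i1 y) • Ml n (fun w => G (A i w)) (R i) r (B i (A i1 y)) =
        GJ G A B R χ r (A i1 y) := by
    rw [← hAp] at z5
    filter_upwards [hAc.eventually z5] with y hy
    refine ⟨hy.1, ?_⟩
    rw [hG]
    exact hy.2 r
  have hsm : ∀ᶠ y in 𝓝 p, ∀ i ∈ I, ContDiffAt ℝ ∞ (fun y => χ i (A i1 y)) y ∧
      ContDiffAt ℝ ∞ (fun y => Ml n (fun w => G (A i w)) (R i) r (B i (A i1 y))) y := by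
    have w1 : ∀ᶠ y : E n in 𝓝 p, ‖y‖ < R i1 :=
      (isOpen_lt continuous_norm continuous_const).mem_nhds hpR
    have w2 : ∀ᶠ y in 𝓝 p, ∀ i ∈ I, ‖y - B i1 x0‖ < ρ i := by
      refine (Finset.eventually_all I).2 fun i hi => ?_
      have : Continuous fun q : E n => ‖q - B i1 x0‖ := by fun_prop
      exact (isOpen_lt this continuous_const).mem_nhds (z1 i hi)
    filter_upwards [w1, w2] with y y1 y2
    intro i hi
    exact ⟨hf.contDiffAt i y1.le, (Ml_smooth (hiF i hi) z0).contDiffAt.comp y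
      ((hρ i hi) y (y2 i hi)).2.2.1.contDiffAt⟩
  have hsmp := hsm.self_of_nhds
  have hfsm : ∀ᶠ y in 𝓝 p, ContDiffAt ℝ ∞ fs y := by
    filter_upwards [hsm] with y hy
    rw [hfs]
    exact ContDiffAt.sum fun o ho => (hy o ho).1.smul (hy o ho).2
  refine ⟨z9 i1 hi1, hx1, ?_, ?_⟩
  · -- smoothness
    have hsmB : ∀ᶠ x' in 𝓝 x, ContDiffAt ℝ ∞ fs (B i1 x') := by
      have h1 : ContinuousAt (B i1) x := ((hf.cht i1).ldB hx1).continuousAt
      have h2 : Tendsto (B i1) (𝓝 x) (𝓝 p) := by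
        have h3 : Tendsto (B i1) (𝓝 x) (𝓝 (B i1 x)) := h1
        rwa [← hp] at h3
      exact h2.eventually hfsm
    have hmem : ∀ᶠ x' in 𝓝 x, x' ∈ A i1 '' ball 0 (R i1) := (hf.cht i1).isOpen.mem_nhds hx1
    have heq : ∀ᶠ x' in 𝓝 x, fs (B i1 x') = GJ G A B R χ r x' := by
      have h1 : ContinuousAt (B i1) x := ((hf.cht i1).ldB hx1).continuousAt
      have h2 : Tendsto (B i1) (𝓝 x) (𝓝 p) := by
        have h3 : Tendsto (B i1) (𝓝 x) (𝓝 (B i1 x)) := h1
        rwa [← hp] at h3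
      filter_upwards [h2.eventually z5', hmem] with x' h3 h4
      rw [hfs]
      beta_reduce
      rw [h3.2, (hf.cht i1).right h4]
    filter_upwards [hsmB, hmem, heq.eventually_nhds] with x' h1 h2 h3
    have h4 : ContMDiffAt (𝓡 n) 𝓘(ℝ, W) ∞ (fs ∘ B i1) x' :=
      (contMDiffAt_iff_contDiffAt.2 h1).comp x' ((hf.cht i1).ldB h2).contMDiffAt
    refine h4.congr_of_eventuallyEq ?_
    filter_upwards [h3] with x'' h5
    rw [← hG]
    exact h5.symm
  · intro δ L c hδ hLτ hint hc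
    rw [← hp, ← hG] at *
    -- estimates for the patches
    have hest : ∀ i ∈ I,
        ‖fderiv ℝ (fun y => Ml n (fun w => G (A i w)) (R i) r (B i (A i1 y))) p - L‖ ≤
          κ i1 ^ 2 * (MD n * (κ i1 ^ (2 * n) * δ + ‖L‖ * (Cs * r) * VB n)) ∧
        ‖Ml n (fun w => G (A i w)) (R i) r (B i (A i1 p)) - c‖ ≤
          MK n * (r * (κ i1 ^ (2 * n) * δ + ‖L‖ * κ i1 ^ 2 * VB n)) := by
      intro i hi
      have hr1 := hρ i hi
      obtain ⟨hs1, hs2, hs3⟩ := hρ' i hi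
      have hκi : κ i ≤ κ i1 := hmax i hi
      have hκi1 := (hf.cht i).one
      have hκκ : κ i * κ i1 ≤ κ i1 ^ 2 := by nlinarith
      have hbx : B i (A i1 p) = B i x := by rw [hAp]
      obtain ⟨b1, b2, b3, b4⟩ := hr1 p (z1 i hi)
      have hsρ : ∀ s, ‖s - B i (A i1 p)‖ ≤ r → ‖s - B i x0‖ < ρ' i := by
        intro s hs
        rw [hbx] at hs
        calc ‖s - B i x0‖ = ‖(s - B i x) + (B i x - B i x0)‖ := by congr 1; abel
          _ ≤ ‖s - B i x‖ + ‖B i x - B i x0‖ := norm_add_le _ _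
          _ < ρ' i := by linarith [z1' i hi]
      have hs0 : ‖B i (A i1 p) - B i x0‖ < ρ' i := hsρ _ (by simpa using z0.le)
      obtain ⟨c1, c2, c3⟩ := hs1 _ hs0
      have hback : B i1 (A i (B i (A i1 p))) = p := by
        rw [(hf.cht i).right b2, (hf.cht i1).left p hpR.le]
      have hid : ∀ u, (fderiv ℝ (fun z => B i1 (A i z)) (B i (A i1 p)))
          (fderiv ℝ (fun z => B i (A i1 z)) p u) = u := by
        intro u
        have d1 : HasFDerivAt (fun z => B i (A i1 z)) (fderiv ℝ (fun z => B i (A i1 z)) p) p :=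
          (b3.contDiffAt.differentiableAt (by simp)).hasFDerivAt
        have d2 : HasFDerivAt (fun z => B i1 (A i z))
            (fderiv ℝ (fun z => B i1 (A i z)) (B i (A i1 p))) (B i (A i1 p)) :=
          (c3.contDiffAt.differentiableAt (by simp)).hasFDerivAt
        have d3 := HasFDerivAt.comp p d2 d1
        have d4 : HasFDerivAt ((fun z => B i1 (A i z)) ∘ fun z => B i (A i1 z))
            (ContinuousLinearMap.id ℝ (E n)) p := by
          refine (hasFDerivAt_id p).congr_of_eventuallyEq ?_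
          have w1 : ∀ᶠ y : E n in 𝓝 p, ‖y‖ < R i1 :=
            (isOpen_lt continuous_norm continuous_const).mem_nhds hpR
          have w2 : ∀ᶠ y in 𝓝 p, ‖y - B i1 x0‖ < ρ i := by
            have : Continuous fun q : E n => ‖q - B i1 x0‖ := by fun_prop
            exact (isOpen_lt this continuous_const).mem_nhds (z1 i hi)
          filter_upwards [w1, w2] with y y1 y2
          show B i1 (A i (B i (A i1 y))) = y
          rw [(hf.cht i).right (hr1 y y2).2.1, (hf.cht i1).left y y1.le]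
        have d5 := d3.unique d4
        have d6 := congrArg (fun L : E n →L[ℝ] E n => L u) d5
        simpa using d6
      have key := estJ (n := n) (h1 := fun w => G (A i1 w)) (h2 := fun w => G (A i w))
        (φ := fun y => B i (A i1 y)) (ψ := fun y => B i1 (A i y)) (p := p)
        (r := r) (κ := κ i1) (δ := δ) (η := Cs * r) (R2 := R i) (L := L)
        (T := fderiv ℝ (fun z => B i1 (A i z)) (B i (A i1 p))) (c := c) z0 hback
        (fun s hs => by
          show B i (A i1 (B i1 (A i s))) = s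
          rw [(hf.cht i1).right (hs1 s (hsρ s hs)).2.1,
            (hf.cht i).left s (hs1 s (hsρ s hs)).1.le])
        (fun s hs => by
          show G (A i1 (B i1 (A i s))) = G (A i s)
          rw [(hf.cht i1).right (hs1 s (hsρ s hs)).2.1])
        (fun s hs => by
          rw [mem_closedBall, dist_eq_norm] at hs
          exact (hs1 s (hsρ s hs)).2.2.continuousAt.continuousWithinAt)
        (fun s hs => by
          have h1 := hs2 _ s hs0 (hsρ s hs)
          rw [hback] at h1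
          refine h1.trans ?_
          have hs' : ‖s - B i (A i1 p)‖ ≤ r := hs
          gcongr)
        (fun s hs => by
          have h1 := hs3 (B i (A i1 p)) r hsρ (B i (A i1 p)) s (by simpa using z0.le) hs
          rw [hback] at h1
          refine h1.trans ?_
          have hs' : ‖s - B i (A i1 p)‖ ≤ r := hs
          have := hCsi i
          have := hCq i
          gcongr)
        (fun s s' hs hs' => by
          show ‖s - s'‖ ≤ κ i1 ^ 2 * ‖B i1 (A i s) - B i1 (A i s')‖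
          obtain ⟨g1, g2, -⟩ := hs1 s (hsρ s hs)
          obtain ⟨g1', g2', -⟩ := hs1 s' (hsρ s' hs')
          have k1 := (hf.cht i).low s s' g1.le g1'.le
          have k2 := (hf.cht i1).up (B i1 (A i s)) (B i1 (A i s')) ((hf.cht i1).mem g2).le
            ((hf.cht i1).mem g2').le
          rw [(hf.cht i1).right g2, (hf.cht i1).right g2'] at k2
          calc ‖s - s'‖ ≤ κ i * d (A i s) (A i s') := k1
            _ ≤ κ i * (κ i1 * ‖B i1 (A i s) - B i1 (A i s')‖) := by gcongr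
            _ = (κ i * κ i1) * ‖B i1 (A i s) - B i1 (A i s')‖ := by ring
            _ ≤ _ := by gcongr)
        (b3.contDiffAt.differentiableAt (by simp)) (b4.trans (by linarith)) hid
        (hiF i hi) (by
          show ‖B i (A i1 p)‖ + r ≤ R i
          rw [hbx]
          exact (z2 i hi).le) hint hc
      exact key
    refine ⟨?_, ?_⟩
    swap
    · have hχ := z5'.self_of_nhds
      have e1 : GJ G A B R χ r x - c = ∑ i ∈ I, χ i (A i1 p) •
          (Ml n (fun w => G (A i w)) (R i) r (B i (A i1 p)) - c) := by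
        simp only [smul_sub, Finset.sum_sub_distrib, ← Finset.sum_smul]
        rw [hχ.1, hχ.2, one_smul, hAp]
      rw [e1]
      refine (norm_sum_le _ _).trans ?_
      have e2 : ∀ i ∈ I, ‖χ i (A i1 p) •
          (Ml n (fun w => G (A i w)) (R i) r (B i (A i1 p)) - c)‖ ≤ χ i (A i1 p) *
          (MK n * (r * (κ i1 ^ (2 * n) * δ + ‖L‖ * κ i1 ^ 2 * VB n))) := by
        intro i hi
        rw [norm_smul, Real.norm_eq_abs, abs_of_nonneg (hf.nn i _)]
        exact mul_le_mul_of_nonneg_left (hest i hi).2 (hf.nn i _)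
      refine (Finset.sum_le_sum e2).trans ?_
      rw [← Finset.sum_mul, hχ.1, one_mul]
    have h1 := patchJ I (fun o y => χ o (A i1 y))
      (fun i y => Ml n (fun w => G (A i w)) (R i) r (B i (A i1 y))) p L c _ D _
      (fun o ho => (hsmp o ho).1.differentiableAt (by simp))
      (fun o ho => (hsmp o ho).2.differentiableAt (by simp))
      (fun o ho => hf.nn o _)
      (by
        filter_upwards [z5'] with y hy
        exact hy.1)
      (fun i hi => (hest i hi).1) (fun i hi => (hest i hi).2) (fun o _ => z6 o) hD0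
    rw [← hfs] at h1
    have h2 : (fun y => GJ G A B R χ r (A i1 y)) =ᶠ[𝓝 p] fs := by
      filter_upwards [z5'] with y hy
      rw [hfs]
      exact hy.2.symm
    rw [h2.fderiv_eq]
    refine h1.trans ?_
    have hMD := MD_nonneg (n := n)
    have hMK := MK_nonneg (n := n)
    have hVB := VB_nonneg (n := n)
    have e1 : κ i1 ^ 2 * (MD n * (κ i1 ^ (2 * n) * δ + ‖L‖ * (Cs * r) * VB n)) +
        I.card * (D * (MK n * (r * (κ i1 ^ (2 * n) * δ + ‖L‖ * κ i1 ^ 2 * VB n)))) =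
        MD n * (κ i1 ^ 2 * κ i1 ^ (2 * n)) * δ +
        ((κ i1 ^ 2 * (MD n * (Cs * VB n)) +
          I.card * (D * (MK n * (κ i1 ^ 2 * VB n)))) * (‖L‖ * r) +
        (I.card * (D * (MK n * κ i1 ^ (2 * n))) * r) * δ) := by ring
    have e2 : κ i1 ^ (2 * n + 2) = κ i1 ^ 2 * κ i1 ^ (2 * n) := by rw [pow_add, mul_comm]
    have e3 : 1 ≤ κ i1 ^ (2 * n + 2) := one_le_pow₀ hκ1
    rw [e1, ← e2]
    have e4 : (κ i1 ^ 2 * (MD n * (Cs * VB n)) +
          I.card * (D * (MK n * (κ i1 ^ 2 * VB n)))) * (‖L‖ * r) ≤ 1 / 2 * δ := by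
      calc _ ≤ (κ i1 ^ 2 * (MD n * (Cs * VB n)) +
          I.card * (D * (MK n * (κ i1 ^ 2 * VB n)))) * (δ * τ r) := by gcongr
        _ = ((κ i1 ^ 2 * (MD n * (Cs * VB n)) +
          I.card * (D * (MK n * (κ i1 ^ 2 * VB n)))) * τ r) * δ := by ring
        _ ≤ _ := by gcongr
    have e5 : (I.card * (D * (MK n * κ i1 ^ (2 * n))) * r) * δ ≤ 1 / 2 * δ := by gcongr
    unfold CJ
    nlinarith

end

end Pool.Agent.N824.CJ
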