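import Pool.Agent.N824.CT.Tang

/-!
# Smoothing of coarse maps with values in a closed manifold
-/

set_option autoImplicit false
set_option maxSynthPendingDepth 3

open Set Filter Topology Metric Function MeasureTheory
open scoped Manifold ContDiff Convolution

set_option linter.unusedSectionVars false

noncomputable section

namespace Pool.Agent.N824.CT

open Pool.Agent.Y522 Pool.Agent.Y954.SH Pool.Agent.N824.CR Pool.Agent.N824.CN Pool.Agent.N824.CJ

variable {m n : ℕ} {W : Type} [NormedAddCommGroup W] [NormedSpace ℝ W] [FiniteDimensional ℝ W]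
  {N : Type} [TopologicalSpace N] [ChartedSpace (E n) N] [IsManifold (𝓡 n) ∞ N]
  {X : Type} [TopologicalSpace X] [ChartedSpace (E m) X]

/-- the coarse condition for maps with values in `N` -/
def CRT (m : ℕ) {W : Type} [NormedAddCommGroup W] [NormedSpace ℝ W] {N : Type}
    {X : Type} [TopologicalSpace X] [ChartedSpace (E m) X]
    (em : N → W) (d : X → X → ℝ) (S : Set ℝ) (f : ℝ → X → N)
    (Q : (E m → X) → E m → (E m →L[ℝ] W) → ℝ → ℝ → Prop) (x : X) : Prop :=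
  ∃ (A : E m → X) (κ ρ : ℝ) (τ : ℝ → ℝ), A 0 = x ∧ LD m A 0 ∧ 1 ≤ κ ∧ 0 < ρ ∧
    Tendsto τ (𝓝[>] 0) (𝓝 0) ∧
    (∀ p q, ‖p‖ < ρ → ‖q‖ < ρ →
      d (A p) (A q) ≤ κ * ‖p - q‖ ∧ ‖p - q‖ ≤ κ * d (A p) (A q)) ∧
    ∀ p, ‖p‖ < ρ → ∀ r ∈ S, 0 < r → r < ρ →
      ∃ (L : E m →L[ℝ] W) (δ : ℝ), 0 ≤ δ ∧ (1 + ‖L‖) * r ≤ δ * τ r ∧ (‖L‖ + δ) * r ≤ τ r ∧
        AM m (fun z => em (f r (A z))) p κ r δ L ∧ Q A p L κ δ

/-- the relation used in the smoothing -/
def QT (m : ℕ) {W : Type} [NormedAddCommGroup W] [NormedSpace ℝ W] {N : Type}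
    {X : Type} (em : N → W) (P : W → N) (δ0 Cr : ℝ) (Φ : X → W)
    (Q : (E m → X) → E m → (E m →L[ℝ] W) → ℝ → ℝ → Prop)
    (r : ℝ) (A : E m → X) (p : E m) (L' : E m →L[ℝ] W) (c' : W) (κ δ' : ℝ) : Prop :=
  ∃ (L : E m →L[ℝ] W) (δ : ℝ), 0 ≤ δ ∧ L' = L - fderiv ℝ (fun z => Φ (A z)) p ∧ δ' = 2 * δ ∧
    Q A p L κ δ ∧
    ∀ w : W, ‖w - (c' + Φ (A p))‖ ≤ MK m * (r * (κ ^ (2 * m) * δ' + ‖L'‖ * κ ^ 2 * VB m)) →
      (∃ y, ‖w - em y‖ < δ0) ∧
      ∀ v, ‖L v - fderiv ℝ (fun w => em (P w)) w (L v)‖ ≤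
        1 / 2 * ‖L v‖ + (1 + 2 * Cr) * KT m * (δ * ‖v‖)

theorem cregT [IsManifold (𝓡 m) ∞ X] {em : N → W} {P : W → N} {δ0 Cr : ℝ}
    (hret : Retr n em P δ0 Cr) {d : X → X → ℝ} {S : Set ℝ} {f : ℝ → X → N} {F₀ : X → N}
    (hF₀ : ContMDiff (𝓡 m) (𝓡 n) ∞ F₀)
    {Q : (E m → X) → E m → (E m →L[ℝ] W) → ℝ → ℝ → Prop} {x : X} (h : CRT m em d S f Q x) :
    CRegN m d S (fun r x => em (f r x) - em (F₀ x))
      (QT m em P δ0 Cr (fun x => em (F₀ x)) Q) x := by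
  obtain ⟨A, κ, ρ, τ, hA0, hA, hκ, hρ, hτ, hbi, hmain⟩ := h
  obtain ⟨g, hg⟩ : ∃ g : E m → W, g = fun z => em (F₀ (A z)) := ⟨_, rfl⟩
  have hgs : ∀ q, LD m A q → ContDiffAt ℝ ∞ g q := by
    intro q hq
    have h1 : ContMDiffAt (𝓡 m) (𝓡 n) ∞ (F₀ ∘ A) q := (hF₀ (A q)).comp q hq.contMDiffAt
    have h2 : ContMDiffAt (𝓡 m) 𝓘(ℝ, W) ∞ (em ∘ (F₀ ∘ A)) q :=
      ContMDiffAt.comp q (hret.si _) h1
    rw [hg]
    exact contMDiffAt_iff_contDiffAt.1 h2
  obtain ⟨ρ4, hρ4, hb4⟩ := Metric.mem_nhds_iff.1 hA.eventually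
  obtain ⟨ρ1, C2, hρ1, hC2, hd1, hq1⟩ := quad_ballW (hgs 0 hA) one_pos
  have hVB := VB_nonneg (n := m)
  have hMK := MK_nonneg (n := m)
  have hKT := KT_pos (m := m)
  have hκ2 : 1 ≤ κ ^ 2 := one_le_pow₀ hκ
  have hκ2' : 0 < κ ^ 2 := by linarith
  obtain ⟨M, hM⟩ : ∃ M, M = ‖fderiv ℝ g 0‖ + 1 := ⟨_, rfl⟩
  have hM0 : 0 ≤ M := by rw [hM]; positivity
  obtain ⟨G, hG⟩ : ∃ G, G = C2 * (κ ^ 2 * κ ^ 2) * ((κ ^ 2) ^ m * VB m) := ⟨_, rfl⟩
  have hG0 : 0 ≤ G := by rw [hG]; positivity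
  obtain ⟨G2, hG2⟩ : ∃ G2, G2 = MK m * (2 * κ ^ (2 * m) + κ ^ 2 * VB m) + 2 * (1 + KT m) :=
    ⟨_, rfl⟩
  obtain ⟨G3, hG3⟩ : ∃ G3, G3 = MK m * (M * κ ^ 2 * VB m) := ⟨_, rfl⟩
  have hκm : 0 ≤ κ ^ (2 * m) := by rw [pow_mul]; positivity
  have hG20 : 0 ≤ G2 := by rw [hG2]; positivity
  have hG30 : 0 ≤ G3 := by rw [hG3]; positivity
  have hid : Tendsto (fun r : ℝ => r) (𝓝[>] 0) (𝓝 0) := nhdsWithin_le_nhds
  have hθ : Tendsto (fun r => G2 * τ r + G3 * r) (𝓝[>] 0) (𝓝 0) := by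
    have h1 := (hτ.const_mul G2).add (hid.const_mul G3)
    rwa [mul_zero, mul_zero, add_zero] at h1
  have hev : ∀ᶠ r in 𝓝[>] (0 : ℝ), G * τ r < 1 ∧ G2 * τ r + G3 * r < δ0 ∧
      Cr * (G2 * τ r + G3 * r) < 1 / 2 := by
    have h1 := hτ.const_mul G
    rw [mul_zero] at h1
    have h2 := hθ.const_mul Cr
    rw [mul_zero] at h2
    exact (h1.eventually_lt_const one_pos).and ((hθ.eventually_lt_const hret.δ0).and
      (h2.eventually_lt_const (by norm_num)))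
  obtain ⟨ρ3, hρ3, hb3⟩ := mem_nhdsGT_iff_exists_Ioo_subset.1 hev
  have hρ3' : 0 < ρ3 := hρ3
  obtain ⟨ρ5, hρ5⟩ : ∃ ρ5, ρ5 = min ρ1 ρ4 / (1 + κ ^ 2) := ⟨_, rfl⟩
  have h15 : 0 < min ρ1 ρ4 := lt_min hρ1 hρ4
  have hρ50 : 0 < ρ5 := by rw [hρ5]; positivity
  refine ⟨A, κ, min (min ρ ρ3) ρ5, fun r => (1 + M) * τ r, hA0, hA, hκ,
    lt_min (lt_min hρ hρ3') hρ50, ?_, fun p q hp hq =>
      hbi p q (hp.trans_le ((min_le_left _ _).trans (min_le_left _ _)))
        (hq.trans_le ((min_le_left _ _).trans (min_le_left _ _))), ?_⟩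
  · have h1 := hτ.const_mul (1 + M)
    rwa [mul_zero] at h1
  · intro p hp r hr h0 hrρ
    have hpρ : ‖p‖ < ρ := hp.trans_le ((min_le_left _ _).trans (min_le_left _ _))
    have hp5 : ‖p‖ < ρ5 := hp.trans_le (min_le_right _ _)
    have hr5 : r < ρ5 := hrρ.trans_le (min_le_right _ _)
    have hr3 : r < ρ3 := hrρ.trans_le ((min_le_left _ _).trans (min_le_right _ _))
    have hnear : ∀ q : E m, ‖q - p‖ ≤ κ ^ 2 * r → ‖q‖ < min ρ1 ρ4 := by
      intro q hq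
      have h1 : ‖q‖ ≤ ‖q - p‖ + ‖p‖ := by
        calc ‖q‖ = ‖(q - p) + p‖ := by congr 1; abel
          _ ≤ _ := norm_add_le _ _
      have h2 : ρ5 * (1 + κ ^ 2) = min ρ1 ρ4 := by
        rw [hρ5]
        field_simp
      nlinarith
    obtain ⟨L, δ, hδ, hLδ, hsm, ⟨hint, c, hc⟩, hQ⟩ := hmain p hpρ r hr h0
      (hrρ.trans_le ((min_le_left _ _).trans (min_le_left _ _)))
    obtain ⟨hev1, hev2, hev3⟩ := hb3 ⟨h0, hr3⟩
    have hLn := norm_nonneg L
    have hτ0 : 0 < δ * τ r := lt_of_lt_of_le (by positivity) hLδ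
    have hτp : 0 < τ r := pos_of_mul_pos_right hτ0 hδ
    have hrδ : r ≤ δ * τ r := by nlinarith
    have hδ2 : G * r ≤ δ := by
      calc G * r ≤ G * (δ * τ r) := by gcongr
        _ = δ * (G * τ r) := by ring
        _ ≤ δ * 1 := by gcongr
        _ = δ := mul_one δ
    have hp1 : ‖p - 0‖ < ρ1 := by
      rw [sub_zero]
      exact (hnear p (by simp; positivity)).trans_le (min_le_left _ _)
    have hgd : ‖fderiv ℝ g p‖ ≤ M := by
      have h1 := hd1 p hp1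
      have h2 : ‖fderiv ℝ g p‖ ≤ ‖fderiv ℝ g 0‖ + ‖fderiv ℝ g p - fderiv ℝ g 0‖ := by
        calc ‖fderiv ℝ g p‖ = ‖fderiv ℝ g 0 + (fderiv ℝ g p - fderiv ℝ g 0)‖ := by
              congr 1; abel
          _ ≤ _ := norm_add_le _ _
      rw [hM]
      linarith
    obtain ⟨L', hL'⟩ : ∃ L', L' = L - fderiv ℝ g p := ⟨_, rfl⟩
    have hL'n : ‖L'‖ ≤ ‖L‖ + M := by
      rw [hL']
      exact (norm_sub_le _ _).trans (by gcongr)
    have hgA : (fun z => em (F₀ (A z))) = g := hg.symm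
    have hgc : ContinuousOn g (closedBall p (κ ^ 2 * r)) := by
      intro q hq
      rw [mem_closedBall, dist_eq_norm] at hq
      have h1 : q ∈ ball (0 : E m) ρ4 :=
        mem_ball_zero_iff.2 ((hnear q hq).trans_le (min_le_right _ _))
      exact (hgs q (hb4 h1)).continuousAt.continuousWithinAt
    have hfin : (volume : Measure (E m)) (closedBall p (κ ^ 2 * r)) ≠ ⊤ :=
      measure_closedBall_lt_top.ne
    refine ⟨L', 2 * δ, c - g p, by positivity, ?_, ⟨?_, ?_⟩, L, δ, hδ, ?_, rfl, hQ,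
      fun w hw => ?_⟩
    · calc ‖L'‖ * r ≤ (‖L‖ + M) * r := by gcongr
        _ ≤ (1 + M) * ((1 + ‖L‖) * r) := by nlinarith [mul_nonneg hM0 (mul_nonneg hLn h0.le)]
        _ ≤ (1 + M) * (δ * τ r) := by gcongr
        _ ≤ 2 * δ * ((1 + M) * τ r) := by nlinarith [mul_pos (show 0 < 1 + M by linarith) hτ0]
    · refine hint.sub ?_
      rw [hgA]
      exact hgc.integrableOn_compact (isCompact_closedBall _ _)
    · have i1 : IntegrableOn (fun q => ‖em (f r (A q)) - c - L (q - p)‖)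
          (closedBall p (κ ^ 2 * r)) := by
        refine ((hint.sub (integrableOn_const hfin)).sub ?_).norm
        refine (Continuous.continuousOn ?_).integrableOn_compact (isCompact_closedBall _ _)
        exact L.continuous.comp (continuous_id.sub continuous_const)
      have i2 : ∀ q ∈ closedBall p (κ ^ 2 * r),
          ‖em (f r (A q)) - em (F₀ (A q)) - (c - g p) - L' (q - p)‖ ≤
          ‖em (f r (A q)) - c - L (q - p)‖ + C2 * (κ ^ 2 * κ ^ 2) * (r * r) := by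
        intro q hq
        rw [mem_closedBall, dist_eq_norm] at hq
        have h1 : em (f r (A q)) - em (F₀ (A q)) - (c - g p) - L' (q - p) =
            (em (f r (A q)) - c - L (q - p)) - (g q - g p - fderiv ℝ g p (q - p)) := by
          have h2 : em (F₀ (A q)) = g q := by rw [hg]
          rw [hL', h2, sub_apply]
          abel
        rw [h1]
        refine (norm_sub_le _ _).trans ?_
        have h2 := hq1 p (κ ^ 2 * r) (fun s hs => by
          rw [sub_zero]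
          exact (hnear s hs).trans_le (min_le_left _ _)) q hq
        have h3 : C2 * (κ ^ 2 * r) * ‖q - p‖ ≤ C2 * (κ ^ 2 * κ ^ 2) * (r * r) := by
          calc C2 * (κ ^ 2 * r) * ‖q - p‖ ≤ C2 * (κ ^ 2 * r) * (κ ^ 2 * r) := by gcongr
            _ = _ := by ring
        linarith
      calc ∫ q in closedBall p (κ ^ 2 * r),
            ‖em (f r (A q)) - em (F₀ (A q)) - (c - g p) - L' (q - p)‖ ≤
          ∫ q in closedBall p (κ ^ 2 * r), (‖em (f r (A q)) - c - L (q - p)‖ +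
            C2 * (κ ^ 2 * κ ^ 2) * (r * r)) := by
            refine setIntegral_mono_on ?_ (i1.add (integrableOn_const hfin))
              measurableSet_closedBall i2
            refine (((hint.sub ?_).sub (integrableOn_const hfin)).sub ?_).norm
            · rw [hgA]
              exact hgc.integrableOn_compact (isCompact_closedBall _ _)
            · refine (Continuous.continuousOn ?_).integrableOn_compact (isCompact_closedBall _ _)
              exact L'.continuous.comp (continuous_id.sub continuous_const)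
        _ = (∫ q in closedBall p (κ ^ 2 * r), ‖em (f r (A q)) - c - L (q - p)‖) +
            C2 * (κ ^ 2 * κ ^ 2) * (r * r) * ((κ ^ 2 * r) ^ m * VB m) := by
            rw [integral_add i1 (integrableOn_const hfin), setIntegral_const,
              vol_cb _ (show 0 < κ ^ 2 * r by positivity), smul_eq_mul,
              mul_comm ((κ ^ 2 * r) ^ m * VB m)]
        _ ≤ δ * r ^ (m + 1) + (G * r) * r ^ (m + 1) := by
            have : C2 * (κ ^ 2 * κ ^ 2) * (r * r) * ((κ ^ 2 * r) ^ m * VB m) =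
                (G * r) * r ^ (m + 1) := by
              rw [hG, mul_pow]
              ring
            rw [this]
            gcongr
        _ ≤ δ * r ^ (m + 1) + δ * r ^ (m + 1) := by gcongr
        _ = 2 * δ * r ^ (m + 1) := by ring
    · beta_reduce
      rw [hgA, hL']
    · have hLr : ‖L‖ * r ≤ τ r := by
        have : 0 ≤ δ * r := by positivity
        linarith [add_mul ‖L‖ δ r]
      have hδr : δ * r ≤ τ r := by
        have : 0 ≤ ‖L‖ * r := by positivity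
        linarith [add_mul ‖L‖ δ r]
      have hL'r : ‖L'‖ * r ≤ τ r + M * r := by
        calc ‖L'‖ * r ≤ (‖L‖ + M) * r := by gcongr
          _ = ‖L‖ * r + M * r := by ring
          _ ≤ _ := by gcongr
      obtain ⟨om, hom⟩ : ∃ om, om =
        MK m * (r * (κ ^ (2 * m) * (2 * δ) + ‖L'‖ * κ ^ 2 * VB m)) := ⟨_, rfl⟩
      have hom0 : 0 ≤ om := by rw [hom]; positivity
      have homb : om + 2 * (‖L‖ * r + KT m * (δ * r)) ≤ G2 * τ r + G3 * r := by
        have k1 : om ≤ MK m * (κ ^ (2 * m) * (2 * τ r) + (τ r + M * r) * κ ^ 2 * VB m) := by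
          have k2 : r * (κ ^ (2 * m) * (2 * δ) + ‖L'‖ * κ ^ 2 * VB m) =
              κ ^ (2 * m) * (2 * (δ * r)) + (‖L'‖ * r) * κ ^ 2 * VB m := by ring
          rw [hom, k2]
          gcongr
        have k3 : 2 * (‖L‖ * r + KT m * (δ * r)) ≤ 2 * (τ r + KT m * τ r) := by gcongr
        refine (add_le_add k1 k3).trans (le_of_eq ?_)
        rw [hG2, hG3]
        ring
      have hcc : c - g p + em (F₀ (A p)) = c := by
        rw [hg]
        abel
      rw [hcc, ← hom] at hw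
      exact tang hret ⟨hint, hc⟩ hκ h0 hδ (homb.trans_lt hev2)
        ((mul_le_mul_of_nonneg_left homb hret.C0).trans hev3.le) hom0 hw

/-- the constant of the smoothing -/
def C2 (m : ℕ) (Cr : ℝ) : ℝ := 2 * (1 + Cr) * CJ m + (1 + 2 * Cr) * KT m

/-- smoothing of coarse maps with values in a closed manifold -/
theorem master [T2Space X] [LocallyCompactSpace X] [SecondCountableTopology X]
    [IsManifold (𝓡 m) ∞ X] {em : N → W} {P : W → N} {δ0 Cr : ℝ}
    (hret : Retr n em P δ0 Cr) {d : X → X → ℝ} {S : Set ℝ}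
    (hS : (0 : ℝ) ∈ closure (S ∩ Ioi 0)) {U Z : Set X} (hU : IsOpen U)
    (hZ : IsClosed Z) (hZU : Z ⊆ U) (hK : IsCompact Uᶜ) {f : ℝ → X → N} {F₀ : X → N}
    (hF₀ : ContMDiff (𝓡 m) (𝓡 n) ∞ F₀) (hf0 : ∀ r ∈ S, ∀ x ∈ U, f r x = F₀ x)
    {Q : (E m → X) → E m → (E m →L[ℝ] W) → ℝ → ℝ → Prop}
    (hf : ∀ x, x ∉ U → CRT m em d S f Q x) :
    ∃ (F : X → N) (K : Set X), IsCompact K ∧ Disjoint K Z ∧ ContMDiff (𝓡 m) (𝓡 n) ∞ F ∧
      (∀ x, x ∉ K → F x = F₀ x) ∧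
      ∀ x, (∃ (A : E m → X) (p : E m) (L : E m →L[ℝ] W) (κ δ : ℝ), A p = x ∧ LD m A p ∧
        1 ≤ κ ∧ 0 ≤ δ ∧ Q A p L κ δ ∧
        ∀ v, ‖fderiv ℝ (fun z => em (F (A z))) p v - L v‖ ≤
          C2 m Cr * κ ^ (2 * m + 2) * δ * ‖v‖ + 1 / 2 * ‖L v‖) ∨
        (x ∈ U ∧ F =ᶠ[𝓝 x] F₀) := by
  obtain ⟨F', K, hKc, hKZ, hK0, hF', hreg⟩ := globN (n := m)
    (fun r x => em (f r x) - em (F₀ x)) d (QT m em P δ0 Cr (fun x => em (F₀ x)) Q) S hS U Z
    hU hZ hZU hK (fun r hr x hx => by rw [hf0 r hr x hx, sub_self])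
    fun x hx => cregT hret hF₀ (hf x hx)
  obtain ⟨Fs, hFs⟩ : ∃ Fs : X → W, Fs = fun x => em (F₀ x) + F' x := ⟨_, rfl⟩
  have hFss : ∀ x, ContMDiffAt (𝓡 m) 𝓘(ℝ, W) ∞ Fs x := by
    intro x
    rw [hFs]
    exact ContMDiffAt.add (ContMDiffAt.comp x (hret.si _) (hF₀ x)) (hF' x)
  have hnear : ∀ x, F' =ᶠ[𝓝 x] (fun _ => 0) → (fun x => P (Fs x)) =ᶠ[𝓝 x] F₀ := by
    intro x hx
    filter_upwards [hx] with y hy
    rw [hFs]
    beta_reduce
    rw [hy, add_zero, hret.left]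
  have hsmN : ∀ x y, ‖Fs x - em y‖ < δ0 →
      ContMDiffAt (𝓡 m) (𝓡 n) ∞ (fun x => P (Fs x)) x := fun x y hy =>
    ContMDiffAt.comp x (hret.sP y (Fs x) hy) (hFss x)
  refine ⟨fun x => P (Fs x), K, hKc, hKZ, fun x => ?_, fun x hx => ?_, fun x => ?_⟩
  · rcases hreg x with h | ⟨-, h⟩
    · obtain ⟨r, A, p, L', c', κ, δ', hr, hAp, hA, hκ, hδ', ⟨L, δ, -, -, -, -, hw⟩, -, hcl⟩ := h
      have h1 : ‖Fs x - (c' + em (F₀ (A p)))‖ ≤
          MK m * (r * (κ ^ (2 * m) * δ' + ‖L'‖ * κ ^ 2 * VB m)) := by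
        rw [hFs, hAp]
        beta_reduce
        rw [show em (F₀ x) + F' x - (c' + em (F₀ x)) = F' x - c' by abel]
        exact hcl
      obtain ⟨⟨y, hy⟩, -⟩ := hw _ h1
      exact hsmN x y hy
    · exact (hF₀ x).congr_of_eventuallyEq (hnear x h)
  · rw [hFs]
    beta_reduce
    rw [hK0 x hx, add_zero, hret.left]
  · rcases hreg x with h | ⟨hxU, h⟩
    · left
      obtain ⟨r, A, p, L', c', κ, δ', hr, hAp, hA, hκ, hδ', ⟨L, δ, hδ, hL', hδδ, hQ, hw⟩,
        hd, hcl⟩ := h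
      refine ⟨A, p, L, κ, δ, hAp, hA, hκ, hδ, hQ, fun v => ?_⟩
      have h1 : ‖Fs (A p) - (c' + em (F₀ (A p)))‖ ≤
          MK m * (r * (κ ^ (2 * m) * δ' + ‖L'‖ * κ ^ 2 * VB m)) := by
        rw [hFs, hAp]
        beta_reduce
        rw [show em (F₀ x) + F' x - (c' + em (F₀ x)) = F' x - c' by abel]
        exact hcl
      obtain ⟨⟨y, hy⟩, htan⟩ := hw _ h1
      obtain ⟨T, hT⟩ : ∃ T, T = fderiv ℝ (fun w => em (P w)) (Fs (A p)) := ⟨_, rfl⟩
      have hTn : ‖T‖ ≤ 1 + Cr := by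
        have h2 := hret.nT y _ hy
        rw [← hT] at h2
        calc ‖T‖ = ‖ContinuousLinearMap.id ℝ W - (ContinuousLinearMap.id ℝ W - T)‖ := by
              congr 1; abel
          _ ≤ ‖ContinuousLinearMap.id ℝ W‖ + ‖ContinuousLinearMap.id ℝ W - T‖ :=
            norm_sub_le _ _
          _ ≤ 1 + Cr := add_le_add ContinuousLinearMap.norm_id_le h2
      have e1 : ContDiffAt ℝ ∞ (fun z => em (F₀ (A z))) p := by
        have k1 : ContMDiffAt (𝓡 m) (𝓡 n) ∞ (F₀ ∘ A) p := (hF₀ (A p)).comp p hA.contMDiffAt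
        have k2 : ContMDiffAt (𝓡 m) 𝓘(ℝ, W) ∞ (em ∘ (F₀ ∘ A)) p :=
          ContMDiffAt.comp p (hret.si _) k1
        exact contMDiffAt_iff_contDiffAt.1 k2
      have e2 : ContDiffAt ℝ ∞ (fun z => F' (A z)) p := by
        have k1 : ContMDiffAt (𝓡 m) 𝓘(ℝ, W) ∞ (F' ∘ A) p :=
          ContMDiffAt.comp p (hF' (A p)) hA.contMDiffAt
        exact contMDiffAt_iff_contDiffAt.1 k1
      have e3 : HasFDerivAt (fun z => Fs (A z))
          (fderiv ℝ (fun z => em (F₀ (A z))) p + fderiv ℝ (fun z => F' (A z)) p) p := by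
        rw [hFs]
        exact (e1.differentiableAt (by simp)).hasFDerivAt.add
          (e2.differentiableAt (by simp)).hasFDerivAt
      have e4 : HasFDerivAt (fun w => em (P w)) T (Fs (A p)) := by
        rw [hT]
        exact (hret.diff hy).hasFDerivAt
      have e5 : fderiv ℝ (fun z => em (P (Fs (A z)))) p = T.comp
          (fderiv ℝ (fun z => em (F₀ (A z))) p + fderiv ℝ (fun z => F' (A z)) p) :=
        (HasFDerivAt.comp (g := fun w => em (P w)) (f := fun z => Fs (A z)) p e4 e3).fderiv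
      obtain ⟨D, hD⟩ : ∃ D, D = fderiv ℝ (fun z => em (F₀ (A z))) p +
        fderiv ℝ (fun z => F' (A z)) p := ⟨_, rfl⟩
      have e6 : ‖D - L‖ ≤ CJ m * κ ^ (2 * m + 2) * (2 * δ) := by
        have : D - L = fderiv ℝ (fun z => F' (A z)) p - L' := by
          rw [hD, hL']
          abel
        rw [this, ← hδδ]
        exact hd
      rw [e5, ← hD, ContinuousLinearMap.comp_apply]
      have e7 : T (D v) - L v = T ((D - L) v) - (L v - T (L v)) := by
        rw [sub_apply, map_sub]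
        abel
      have e8 := htan v
      rw [← hT] at e8
      have hCr := hret.C0
      have hCJ := CJ_one (n := m)
      have hκ1 : 1 ≤ κ ^ (2 * m + 2) := one_le_pow₀ hκ
      have hvn := norm_nonneg v
      have hKT := KT_pos (m := m)
      have e9 : ‖T ((D - L) v)‖ ≤ (1 + Cr) * ((CJ m * κ ^ (2 * m + 2) * (2 * δ)) * ‖v‖) := by
        refine (T.le_opNorm _).trans ?_
        refine mul_le_mul hTn ?_ (norm_nonneg _) (by linarith)
        refine (ContinuousLinearMap.le_opNorm _ _).trans ?_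
        gcongr
      have e10 : (1 + 2 * Cr) * KT m * (δ * ‖v‖) ≤
          (1 + 2 * Cr) * KT m * κ ^ (2 * m + 2) * (δ * ‖v‖) := by
        have k1 : (1 + 2 * Cr) * KT m ≤ (1 + 2 * Cr) * KT m * κ ^ (2 * m + 2) :=
          le_mul_of_one_le_right (by positivity) hκ1
        gcongr
      rw [e7]
      refine (norm_sub_le _ _).trans ?_
      have e11 : C2 m Cr * κ ^ (2 * m + 2) * δ * ‖v‖ =
          (1 + Cr) * ((CJ m * κ ^ (2 * m + 2) * (2 * δ)) * ‖v‖) +
          (1 + 2 * Cr) * KT m * κ ^ (2 * m + 2) * (δ * ‖v‖) := by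
        unfold C2
        ring
      rw [e11]
      linarith
    · exact Or.inr ⟨hxU, hnear x h⟩

end Pool.Agent.N824.CT
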