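import Pool.Agent.N824.CT.GlobN
import Pool.Agent.N824.CN.Proj
import Pool.Agent.N824.CD.Moll

/-!
# Coarse jets with values in a submanifold are nearly tangent
-/

set_option autoImplicit false
set_option maxSynthPendingDepth 3

open Set Filter Topology Metric Function MeasureTheory
open scoped Manifold ContDiff Convolution

set_option linter.unusedSectionVars false

noncomputable section

namespace Pool.Agent.N824.CT

open Pool.Agent.Y522 Pool.Agent.Y954.SH Pool.Agent.N824.CR Pool.Agent.N824.CN Pool.Agent.N824.CJ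
open Pool.Agent.N824.CD (VB_pos)

variable {m n : ℕ} {W : Type} [NormedAddCommGroup W] [NormedSpace ℝ W] [FiniteDimensional ℝ W]
  {N : Type} [TopologicalSpace N] [ChartedSpace (E n) N]

/-- the constant of the selection -/
def KT (m : ℕ) : ℝ := 2 ^ (m + 1) * (VB m)⁻¹

lemma KT_pos : 0 < KT m := by
  have := VB_pos (n := m)
  unfold KT
  positivity

/-- good pairs of points -/
theorem good_pair {h : E m → W} {p u : E m} {κ r δ : ℝ} {L : E m →L[ℝ] W} {c : W}
    (hA : MEst m h p κ r δ L c) (hκ : 1 ≤ κ) (hr : 0 < r) (hu : ‖u‖ ≤ r / 2) :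
    ∃ q, ‖q - p‖ ≤ r / 2 ∧
      ‖h q - c - L (q - p)‖ + ‖h (q + u) - c - L (q + u - p)‖ ≤ KT m * (δ * r) := by
  obtain ⟨hint, hle⟩ := hA
  obtain ⟨g, hg⟩ : ∃ g : E m → ℝ, g = fun q => ‖h q - c - L (q - p)‖ := ⟨_, rfl⟩
  have hκ2 : 1 ≤ κ ^ 2 := one_le_pow₀ hκ
  have hκr : r ≤ κ ^ 2 * r := by nlinarith
  have hgi : IntegrableOn g (closedBall p (κ ^ 2 * r)) := by
    rw [hg]
    refine Integrable.norm (Integrable.sub (hint.sub ?_) ?_)
    · exact integrableOn_const (by exact measure_closedBall_lt_top.ne)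
    · refine (Continuous.continuousOn ?_).integrableOn_compact (isCompact_closedBall _ _)
      exact L.continuous.comp (continuous_id.sub continuous_const)
  have hgn : ∀ q, 0 ≤ g q := fun q => by rw [hg]; exact norm_nonneg _
  have hs1 : closedBall p (r / 2) ⊆ closedBall p (κ ^ 2 * r) :=
    closedBall_subset_closedBall (by linarith)
  have hs2 : closedBall (p + u) (r / 2) ⊆ closedBall p (κ ^ 2 * r) := by
    intro s hs
    rw [mem_closedBall, dist_eq_norm] at hs ⊢
    calc ‖s - p‖ = ‖(s - (p + u)) + u‖ := by congr 1; abel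
      _ ≤ ‖s - (p + u)‖ + ‖u‖ := norm_add_le _ _
      _ ≤ κ ^ 2 * r := by linarith
  have htr := (measurePreserving_add_right (volume : Measure (E m)) u)
  have hpre : (fun w : E m => w + u) ⁻¹' closedBall (p + u) (r / 2) = closedBall p (r / 2) := by
    ext w
    simp only [mem_preimage, mem_closedBall, dist_eq_norm]
    rw [add_sub_add_right_eq_sub]
  have hi2 : IntegrableOn (fun q => g (q + u)) (closedBall p (r / 2)) := by
    have h1 := (htr.integrableOn_comp_preimage (MeasurableEquiv.addRight u).measurableEmbedding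
      (f := g) (s := closedBall (p + u) (r / 2))).2 (hgi.mono_set hs2)
    rw [hpre] at h1
    exact h1
  have hI2 : ∫ q in closedBall p (r / 2), g (q + u) = ∫ q in closedBall (p + u) (r / 2), g q := by
    have h1 := htr.setIntegral_preimage_emb (MeasurableEquiv.addRight u).measurableEmbedding g
      (closedBall (p + u) (r / 2))
    rw [hpre] at h1
    exact h1
  have hle' : ∫ q in closedBall p (κ ^ 2 * r), g q ≤ δ * r ^ (m + 1) := by
    rw [hg]
    exact hle
  have hb1 : ∫ q in closedBall p (r / 2), g q ≤ δ * r ^ (m + 1) :=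
    (setIntegral_mono_set hgi (Eventually.of_forall hgn) hs1.eventuallyLE).trans hle'
  have hb2 : ∫ q in closedBall (p + u) (r / 2), g q ≤ δ * r ^ (m + 1) :=
    (setIntegral_mono_set hgi (Eventually.of_forall hgn) hs2.eventuallyLE).trans hle'
  have hv0 : (volume : Measure (E m)) (closedBall p (r / 2)) ≠ 0 :=
    (measure_closedBall_pos _ _ (by positivity)).ne'
  obtain ⟨q, hq, hqle⟩ := exists_le_setAverage hv0 measure_closedBall_lt_top.ne
    ((hgi.mono_set hs1).add hi2)
  refine ⟨q, by rwa [mem_closedBall, dist_eq_norm] at hq, ?_⟩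
  have e1 : ‖h q - c - L (q - p)‖ + ‖h (q + u) - c - L (q + u - p)‖ = g q + g (q + u) := by
    rw [hg]
  rw [e1]
  refine hqle.trans ?_
  rw [setAverage_eq, vol_cb p (show 0 < r / 2 by positivity), smul_eq_mul]
  have e2 : ∫ q in closedBall p (r / 2), (g + fun q => g (q + u)) q =
      (∫ q in closedBall p (r / 2), g q) + ∫ q in closedBall p (r / 2), g (q + u) :=
    integral_add (hgi.mono_set hs1) hi2
  have e3 : ∫ q in closedBall p (r / 2), (g + fun q => g (q + u)) q ≤ 2 * (δ * r ^ (m + 1)) := by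
    rw [e2, hI2]
    linarith
  have hVB := VB_pos (n := m)
  calc ((r / 2) ^ m * VB m)⁻¹ * ∫ q in closedBall p (r / 2), (g + fun q => g (q + u)) q ≤
      ((r / 2) ^ m * VB m)⁻¹ * (2 * (δ * r ^ (m + 1))) := by gcongr
    _ = KT m * (δ * r) := by
      unfold KT
      rw [div_pow, pow_succ, pow_succ]
      field_simp

/-- coarse jets are nearly tangent -/
theorem tang {em : N → W} {P : W → N} {δ0 Cr : ℝ} (hret : Retr n em P δ0 Cr) {h : E m → N}
    {p : E m} {κ r δ om : ℝ} {L : E m →L[ℝ] W} {c : W}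
    (hA : MEst m (fun q => em (h q)) p κ r δ L c) (hκ : 1 ≤ κ) (hr : 0 < r) (hδ : 0 ≤ δ)
    (h1 : om + 2 * (‖L‖ * r + KT m * (δ * r)) < δ0)
    (h2 : Cr * (om + 2 * (‖L‖ * r + KT m * (δ * r))) ≤ 1 / 2) (hom : 0 ≤ om) {w : W}
    (hw : ‖w - c‖ ≤ om) :
    (∃ y, ‖w - em y‖ < δ0) ∧
    ∀ v, ‖L v - fderiv ℝ (fun w => em (P w)) w (L v)‖ ≤
      1 / 2 * ‖L v‖ + (1 + 2 * Cr) * KT m * (δ * ‖v‖) := by
  have hK := KT_pos (m := m)
  have hCr := hret.C0
  have hLn := norm_nonneg L
  have hgen : ∀ u : E m, ‖u‖ ≤ r / 2 → ∃ y, ‖w - em y‖ < δ0 ∧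
      ‖L u - fderiv ℝ (fun w => em (P w)) w (L u)‖ ≤
        1 / 2 * ‖L u‖ + (1 / 2 + Cr) * (KT m * (δ * r)) := by
    intro u hu
    obtain ⟨q, hq, hg⟩ := good_pair hA hκ hr hu
    obtain ⟨T, hT⟩ : ∃ T, T = ContinuousLinearMap.id ℝ W - fderiv ℝ (fun w => em (P w)) w :=
      ⟨_, rfl⟩
    obtain ⟨a, ha⟩ : ∃ a, a = em (h q) := ⟨_, rfl⟩
    obtain ⟨b, hb⟩ : ∃ b, b = em (h (q + u)) := ⟨_, rfl⟩
    obtain ⟨ea, hea⟩ : ∃ ea, ea = a - c - L (q - p) := ⟨_, rfl⟩
    obtain ⟨eb, heb⟩ : ∃ eb, eb = b - c - L (q + u - p) := ⟨_, rfl⟩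
    have hgs : ‖ea‖ + ‖eb‖ ≤ KT m * (δ * r) := by
      rw [hea, heb, ha, hb]
      exact hg
    have hean := norm_nonneg ea
    have hebn := norm_nonneg eb
    have hdiff : b - a = L u + (eb - ea) := by
      rw [hea, heb]
      have : L (q + u - p) = L (q - p) + L u := by
        rw [← map_add]
        congr 1
        abel
      rw [this]
      abel
    have hee : ‖eb - ea‖ ≤ KT m * (δ * r) := (norm_sub_le _ _).trans (by linarith)
    have hba : ‖b - a‖ ≤ ‖L u‖ + KT m * (δ * r) := by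
      rw [hdiff]
      exact (norm_add_le _ _).trans (by gcongr)
    have hLu : ‖L u‖ ≤ ‖L‖ * r := by
      refine (L.le_opNorm u).trans ?_
      gcongr
      linarith
    have hac : ‖w - a‖ ≤ om + ‖L‖ * r + KT m * (δ * r) := by
      have e1 : w - a = (w - c) - (L (q - p) + ea) := by
        rw [hea]
        abel
      have e2 : ‖L (q - p)‖ ≤ ‖L‖ * r := by
        refine (L.le_opNorm _).trans ?_
        gcongr
        linarith
      rw [e1]
      have e3 := norm_sub_le (w - c) (L (q - p) + ea)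
      have e4 := norm_add_le (L (q - p)) ea
      linarith
    have hKδ : 0 ≤ KT m * (δ * r) := by positivity
    have hLr : 0 ≤ ‖L‖ * r := by positivity
    have hwa : ‖w - em (h q)‖ < δ0 := by
      rw [← ha]
      linarith
    have hba' : ‖em (h (q + u)) - em (h q)‖ < δ0 := by
      rw [← ha, ← hb]
      linarith
    have hn := hret.nT (h q) w hwa
    rw [← hT] at hn
    have hquad := hret.quad (h q) (h (q + u)) w hwa hba'
    rw [← hT, ← ha, ← hb] at hquad
    refine ⟨h q, hwa, ?_⟩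
    have e5 : L u - fderiv ℝ (fun w => em (P w)) w (L u) = T (b - a) - T (eb - ea) := by
      have e6 : L u = (b - a) - (eb - ea) := by
        rw [hdiff]
        abel
      have e7 : L u - fderiv ℝ (fun w => em (P w)) w (L u) = T (L u) := by
        rw [hT]
        rfl
      rw [e7, ← map_sub, ← e6]
    rw [e5]
    have e8 : ‖T (b - a)‖ ≤ 1 / 2 * (‖L u‖ + KT m * (δ * r)) := by
      refine hquad.trans ?_
      have e9 : Cr * (‖w - a‖ + ‖b - a‖) ≤ 1 / 2 :=
        (mul_le_mul_of_nonneg_left (by linarith) hCr).trans h2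
      calc Cr * (‖w - a‖ + ‖b - a‖) * ‖b - a‖ ≤ 1 / 2 * ‖b - a‖ := by gcongr
        _ ≤ _ := by gcongr
    have e10 : ‖T (eb - ea)‖ ≤ Cr * (KT m * (δ * r)) := by
      refine (T.le_opNorm _).trans ?_
      gcongr
    have e11 := norm_sub_le (T (b - a)) (T (eb - ea))
    linarith
  refine ⟨?_, fun v => ?_⟩
  · obtain ⟨y, hy, -⟩ := hgen 0 (by rw [norm_zero]; positivity)
    exact ⟨y, hy⟩
  · rcases eq_or_ne v 0 with rfl | hv
    · simp
    · have hvn : 0 < ‖v‖ := norm_pos_iff.2 hv
      obtain ⟨s, hs⟩ : ∃ s : ℝ, s = r / (2 * ‖v‖) := ⟨_, rfl⟩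
      have hs0 : 0 < s := by rw [hs]; positivity
      obtain ⟨-, -, hle⟩ := hgen (s • v) (by
        rw [norm_smul, Real.norm_eq_abs, abs_of_pos hs0, hs]
        field_simp
        exact le_rfl)
      rw [map_smul, map_smul, ← smul_sub, norm_smul, norm_smul, Real.norm_eq_abs,
        abs_of_pos hs0] at hle
      have e1 : r = 2 * ‖v‖ * s := by
        rw [hs]
        field_simp
      rw [e1] at hle
      have e2 : s * ‖L v - fderiv ℝ (fun w => em (P w)) w (L v)‖ ≤
          s * (1 / 2 * ‖L v‖ + (1 + 2 * Cr) * KT m * (δ * ‖v‖)) := by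
        refine hle.trans (le_of_eq ?_)
        ring
      exact le_of_mul_le_mul_left e2 hs0

end Pool.Agent.N824.CT
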